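import Pool.Agent.MPce8478.LocalMax

set_option autoImplicit false

open Set Filter Topology Metric

namespace Pool.Agent.MPce8478

/-- the ratio function -/
noncomputable def ra (q f₁ f₂ g₁ g₂ : ℂ → ℂ) (z : ℂ) : ℝ :=
  ‖q z‖ * ((1 - ‖f₁ z‖ ^ 2) * (1 - ‖f₂ z‖ ^ 2) / ((1 - ‖g₁ z‖ ^ 2) * (1 - ‖g₂ z‖ ^ 2)))

theorem ra_cont {q f₁ f₂ g₁ g₂ : ℂ → ℂ} (hq : DifferentiableOn ℂ q (ball 0 1))
    (h1 : DifferentiableOn ℂ f₁ (ball 0 1)) (h2 : DifferentiableOn ℂ f₂ (ball 0 1))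
    (h3 : DifferentiableOn ℂ g₁ (ball 0 1)) (h4 : DifferentiableOn ℂ g₂ (ball 0 1))
    (m3 : MapsTo g₁ (ball 0 1) (ball 0 1)) (m4 : MapsTo g₂ (ball 0 1) (ball 0 1)) :
    ContinuousOn (ra q f₁ f₂ g₁ g₂) (ball 0 1) := by
  have c : ∀ {f : ℂ → ℂ}, DifferentiableOn ℂ f (ball 0 1) →
      ContinuousOn (fun z => 1 - ‖f z‖ ^ 2) (ball 0 1) := fun hf =>
    continuousOn_const.sub (hf.continuousOn.norm.pow 2)
  refine hq.continuousOn.norm.mul (((c h1).mul (c h2)).div ((c h3).mul (c h4)) fun z hz => ?_)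
  have p3 := one_sub_sq_pos (mem_ball_zero_iff.1 (m3 hz))
  have p4 := one_sub_sq_pos (mem_ball_zero_iff.1 (m4 hz))
  positivity

theorem zero_maps : MapsTo (fun _ : ℂ => (0 : ℂ)) (ball 0 1) (ball 0 1) := fun _ _ => by simp

theorem pb_zero (p : ℂ) : pb (fun _ => 0) p = 0 := by simp [pb]

theorem compare {A B C g f q₁ q₂ : ℂ → ℂ}
    (hA : ∀ z ∈ ball (0 : ℂ) 1, A z = B (C z))
    (hC : DifferentiableOn ℂ C (ball 0 1)) (mC : MapsTo C (ball 0 1) (ball 0 1))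
    (hB : DifferentiableOn ℂ B (ball 0 1)) (mB : MapsTo B (ball 0 1) (ball 0 1))
    (hg : DifferentiableOn ℂ g (ball 0 1)) (mg : MapsTo g (ball 0 1) (ball 0 1))
    (hf : DifferentiableOn ℂ f (ball 0 1)) (mf : MapsTo f (ball 0 1) (ball 0 1))
    (hq₁ : DifferentiableOn ℂ q₁ (ball 0 1)) (nq₁ : ∀ z ∈ ball (0 : ℂ) 1, q₁ z ≠ 0)
    (hq₂ : DifferentiableOn ℂ q₂ (ball 0 1))
    (e1 : ∀ z ∈ ball (0 : ℂ) 1, deriv B (C z) * deriv C z = q₁ z * deriv f z)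
    (e2 : ∀ z ∈ ball (0 : ℂ) 1, deriv B (C z) * deriv g z = q₂ z * deriv f z)
    (e3 : ∀ z ∈ ball (0 : ℂ) 1, q₂ z * deriv C z = q₁ z * deriv g z)
    {ρ : ℝ} (hρ : ρ < 1)
    (bd1 : ∀ z : ℂ, ρ < ‖z‖ → ‖z‖ < 1 → ra q₁ f (fun _ => 0) A (fun _ => 0) z ≤ 1)
    (bd2 : ∀ z : ℂ, ρ < ‖z‖ → ‖z‖ < 1 → ra q₂ f C A g z ≤ 1) :
    ∀ z ∈ ball (0 : ℂ) 1, ra q₁ f (fun _ => 0) A (fun _ => 0) z ≤ 1 ∧ ra q₂ f C A g z ≤ 1 := by
  set ψ₁ := ra q₁ f (fun _ => 0) A (fun _ => 0) with hψ₁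
  set ψ₂ := ra q₂ f C A g with hψ₂
  have hAd : DifferentiableOn ℂ A (ball 0 1) := (hB.comp hC mC).congr hA
  have mA : MapsTo A (ball 0 1) (ball 0 1) := fun z hz => by rw [hA z hz]; exact mB (mC hz)
  have cψ₁ : ContinuousOn ψ₁ (ball 0 1) :=
    ra_cont hq₁ hf (differentiableOn_const _) hAd (differentiableOn_const _) mA zero_maps
  have cψ₂ : ContinuousOn ψ₂ (ball 0 1) := ra_cont hq₂ hf hC hAd hg mA mg
  set Φ : ℂ → ℝ := fun z => max (ψ₁ z) (ψ₂ z) with hΦ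
  suffices h : ∀ z ∈ ball (0 : ℂ) 1, Φ z ≤ 1 from fun z hz =>
    ⟨(le_max_left _ _).trans (h z hz), (le_max_right _ _).trans (h z hz)⟩
  by_contra hcon
  push Not at hcon
  obtain ⟨p₀, hp₀, hM⟩ := hcon
  set M := Φ p₀ with hMdef
  have hp₀' := mem_ball_zero_iff.1 hp₀
  set δ := Real.log M / 2 with hδ
  have hlogM : 0 < Real.log M := Real.log_pos hM
  have hδ0 : 0 < δ := by positivity
  have hexpδ : Real.exp δ < M := by
    calc Real.exp δ < Real.exp (Real.log M) := Real.exp_lt_exp.2 (by rw [hδ]; linarith)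
      _ = M := Real.exp_log (by linarith)
  set ρ' := max ρ ‖p₀‖ with hρ'
  have hρ'1 : ρ' < 1 := max_lt hρ hp₀'
  have hsub : closedBall (0 : ℂ) ρ' ⊆ ball 0 1 := closedBall_subset_ball hρ'1
  set Ψ : ℂ → ℝ := fun z => Φ z * Real.exp (δ * ‖z‖ ^ 2) with hΨ
  have cΨ : ContinuousOn Ψ (ball 0 1) := (cψ₁.sup cψ₂).mul (by fun_prop)
  have hp₀K : p₀ ∈ closedBall (0 : ℂ) ρ' := mem_closedBall_zero_iff.2 (le_max_right _ _)
  obtain ⟨p, hpK, hpmax⟩ := (isCompact_closedBall (0 : ℂ) ρ').exists_isMaxOn ⟨p₀, hp₀K⟩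
    (cΨ.mono hsub)
  have hpb := hsub hpK
  have hp1 := mem_ball_zero_iff.1 hpb
  have hΨp₀ : M ≤ Ψ p := by
    have h1 : Ψ p₀ ≤ Ψ p := hpmax hp₀K
    have h2 : M ≤ Ψ p₀ := by
      simp only [hΨ]
      rw [← hMdef]
      have : 1 ≤ Real.exp (δ * ‖p₀‖ ^ 2) := Real.one_le_exp (by positivity)
      nlinarith
    linarith
  have hsmall : ∀ z : ℂ, ‖z‖ < 1 → Φ z ≤ 1 → Ψ z < M := by
    intro z hz hΦz
    have h1 : Real.exp (δ * ‖z‖ ^ 2) ≤ Real.exp δ := by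
      apply Real.exp_le_exp.2
      have : ‖z‖ ^ 2 ≤ 1 := pow_le_one₀ (norm_nonneg _) hz.le
      nlinarith
    have h2 : 0 < Real.exp (δ * ‖z‖ ^ 2) := Real.exp_pos _
    simp only [hΨ]
    nlinarith
  have hglobal : ∀ z ∈ ball (0 : ℂ) 1, Ψ z ≤ Ψ p := by
    intro z hz
    have hz1 := mem_ball_zero_iff.1 hz
    rcases le_or_gt ‖z‖ ρ' with h | h
    · exact hpmax (mem_closedBall_zero_iff.2 h)
    · have h1 : Φ z ≤ 1 := by
        have hρz : ρ < ‖z‖ := (le_max_left _ _).trans_lt h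
        exact max_le (bd1 z hρz hz1) (bd2 z hρz hz1)
      exact ((hsmall z hz1 h1).le).trans hΨp₀
  have hlocal : ∀ᶠ z in 𝓝 p, Ψ z ≤ Ψ p := by
    filter_upwards [isOpen_ball.mem_nhds hpb] with z hz
    exact hglobal z hz
  have hΦp : 1 < Φ p := by
    by_contra hc
    push Not at hc
    exact absurd (hsmall p hp1 hc) (not_lt.2 hΨp₀)
  have evd : ∀ {F : ℂ → ℂ}, DifferentiableOn ℂ F (ball 0 1) → ∀ᶠ z in 𝓝 p, DifferentiableAt ℂ F z :=
    fun hF => by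
      filter_upwards [isOpen_ball.mem_nhds hpb] with z hz
      exact hF.differentiableAt (isOpen_ball.mem_nhds hz)
  have nlt : ∀ {F : ℂ → ℂ}, MapsTo F (ball 0 1) (ball 0 1) → ‖F p‖ < 1 := fun mF =>
    mem_ball_zero_iff.1 (mF hpb)
  -- values of the densities at `p`
  have hAder : deriv A p = deriv B (C p) * deriv C p := by
    have h1 : HasDerivAt (fun z => B (C z)) (deriv B (C p) * deriv C p) p :=
      (diffAt hB (nlt mC)).hasDerivAt.comp p (diffAt hC hp1).hasDerivAt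
    have h2 : A =ᶠ[𝓝 p] fun z => B (C z) := by
      filter_upwards [isOpen_ball.mem_nhds hpb] with z hz
      exact hA z hz
    rw [h2.deriv_eq]
    exact h1.deriv
  have pA := one_sub_sq_pos (nlt mA)
  have pf := one_sub_sq_pos (nlt mf)
  have pC := one_sub_sq_pos (nlt mC)
  have pg := one_sub_sq_pos (nlt mg)
  have hψ₁val : pb A p = ψ₁ p * pb f p := by
    simp only [hψ₁, ra, pb]
    rw [hAder, e1 p hpb, norm_mul, norm_zero]
    field_simp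
  have hψ₁pos : 0 < ψ₁ p := by
    simp only [hψ₁, ra]
    have := norm_pos_iff.2 (nq₁ p hpb)
    rw [norm_zero]
    have : 0 < (1 : ℝ) - 0 ^ 2 := by norm_num
    positivity
  have sf : 0 ≤ pb f p := div_nonneg (norm_nonneg _) pf.le
  rcases le_or_gt (ψ₂ p) (ψ₁ p) with hcase | hcase
  · -- the maximum is attained by ψ₁
    have hΦ1 : Φ p = ψ₁ p := max_eq_left hcase
    have hmax : IsLocalMax (fun z => ‖q₁ z‖ * ((1 - ‖f z‖ ^ 2) * (1 - ‖(fun _ => (0 : ℂ)) z‖ ^ 2) /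
        ((1 - ‖A z‖ ^ 2) * (1 - ‖(fun _ => (0 : ℂ)) z‖ ^ 2))) * Real.exp (δ * ‖z‖ ^ 2)) p := by
      filter_upwards [hlocal] with z hz
      have h1 : ψ₁ z * Real.exp (δ * ‖z‖ ^ 2) ≤ Ψ z :=
        mul_le_mul_of_nonneg_right (le_max_left _ _) (Real.exp_pos _).le
      have h2 : Ψ p = ψ₁ p * Real.exp (δ * ‖p‖ ^ 2) := by simp only [hΨ]; rw [hΦ1]
      exact (h1.trans hz).trans_eq h2
    have hLM := local_max (evd hq₁) (nq₁ p hpb) (evd hf) (nlt mf) (evd (differentiableOn_const _))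
      (nlt zero_maps) (evd hAd) (nlt mA) (evd (differentiableOn_const _)) (nlt zero_maps) hδ0.le hmax
    rw [pb_zero, hψ₁val] at hLM
    have h1 : 1 < ψ₁ p := by rwa [hΦ1] at hΦp
    have h2 : pb f p ^ 2 ≤ (ψ₁ p * pb f p) ^ 2 := by
      apply pow_le_pow_left₀ sf
      nlinarith
    nlinarith
  · -- the maximum is attained by ψ₂
    have hΦ2 : Φ p = ψ₂ p := max_eq_right hcase.le
    have h1 : 1 < ψ₂ p := by rwa [hΦ2] at hΦp
    have hq₂p : q₂ p ≠ 0 := by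
      intro h0
      have : ψ₂ p = 0 := by simp only [hψ₂, ra]; rw [h0, norm_zero, zero_mul]
      rw [this] at h1
      linarith
    have hmax : IsLocalMax (fun z => ‖q₂ z‖ * ((1 - ‖f z‖ ^ 2) * (1 - ‖C z‖ ^ 2) /
        ((1 - ‖A z‖ ^ 2) * (1 - ‖g z‖ ^ 2))) * Real.exp (δ * ‖z‖ ^ 2)) p := by
      filter_upwards [hlocal] with z hz
      have h1 : ψ₂ z * Real.exp (δ * ‖z‖ ^ 2) ≤ Ψ z :=
        mul_le_mul_of_nonneg_right (le_max_right _ _) (Real.exp_pos _).le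
      have h2 : Ψ p = ψ₂ p * Real.exp (δ * ‖p‖ ^ 2) := by simp only [hΨ]; rw [hΦ2]
      exact (h1.trans hz).trans_eq h2
    have hLM := local_max (evd hq₂) hq₂p (evd hf) (nlt mf) (evd hC) (nlt mC) (evd hAd) (nlt mA)
      (evd hg) (nlt mg) hδ0.le hmax
    -- the relations
    set c := pb C p with hc
    set ν := pb g p with hν
    set s := pb f p with hs
    set H := ‖deriv B (C p)‖ * (1 - ‖C p‖ ^ 2) / (1 - ‖A p‖ ^ 2) with hH
    have c0 : 0 ≤ c := div_nonneg (norm_nonneg _) pC.le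
    have ν0 : 0 ≤ ν := div_nonneg (norm_nonneg _) pg.le
    have hH1 : H ≤ 1 := by
      have h3 := schwarz_pick hB mB (nlt mC)
      unfold pb at h3
      rw [← hA p hpb] at h3
      rw [hH]
      calc ‖deriv B (C p)‖ * (1 - ‖C p‖ ^ 2) / (1 - ‖A p‖ ^ 2) =
          ‖deriv B (C p)‖ / (1 - ‖A p‖ ^ 2) * (1 - ‖C p‖ ^ 2) := by ring
        _ ≤ 1 := h3
    have hH0 : 0 ≤ H := by rw [hH]; positivity
    have rA : pb A p = H * c := by
      simp only [hH, hc, pb]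
      rw [hAder, norm_mul]
      field_simp
    have rν : H * ν = ψ₂ p * s := by
      have h3 := congrArg norm (e2 p hpb)
      rw [norm_mul, norm_mul] at h3
      simp only [hH, hν, hs, hψ₂, ra, pb]
      field_simp
      linear_combination h3
    have rc : ψ₁ p * ν = ψ₂ p * c := by
      have h3 := congrArg norm (e3 p hpb)
      rw [norm_mul, norm_mul] at h3
      simp only [hc, hν, hψ₂, hψ₁, ra, pb]
      rw [norm_zero]
      field_simp
      linear_combination -h3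
    have hνc : c ≤ ν := by
      have h3 : ψ₁ p * c ≤ ψ₁ p * ν := by rw [rc]; exact mul_le_mul_of_nonneg_right hcase.le c0
      exact le_of_mul_le_mul_left h3 hψ₁pos
    have hsH : s ≤ H * ν := by
      rw [rν]
      nlinarith
    rw [rA] at hLM
    have h4 : s ^ 2 ≤ (H * ν) ^ 2 := pow_le_pow_left₀ sf hsH 2
    have h5 : 0 ≤ (1 - H ^ 2) * (ν ^ 2 - c ^ 2) := by
      apply mul_nonneg
      · nlinarith
      · nlinarith
    nlinarith

end Pool.Agent.MPce8478
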