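import Mathlib

set_option autoImplicit false

open Set Filter Topology Metric

namespace Pool.Agent.MPce8478

/-- `f ∈ H^∞(𝔻)` -/
def HInf (f : ℂ → ℂ) : Prop :=
  DifferentiableOn ℂ f (ball 0 1) ∧ ∃ M : ℝ, ∀ z ∈ ball (0 : ℂ) 1, ‖f z‖ ≤ M

/-- A sequence with repetitions is encoded by its multiplicity function `κ`: it is an
`H^∞` critical set if some nonconstant `f ∈ H^∞` has `f'` vanishing to order exactly `κ z`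
at every `z ∈ 𝔻`. -/
def IsCriticalSet (κ : ℂ → ℕ) : Prop :=
  ∃ f : ℂ → ℂ, HInf f ∧ (¬ ∃ c : ℂ, ∀ z ∈ ball (0 : ℂ) 1, f z = c) ∧
    ∀ z ∈ ball (0 : ℂ) 1, analyticOrderAt (deriv f) z = κ z

/-- the class `F_𝒞` -/
def FC (κ : ℂ → ℕ) (f : ℂ → ℂ) : Prop :=
  HInf f ∧ ∀ z ∈ ball (0 : ℂ) 1, (κ z : ℕ∞) ≤ analyticOrderAt (deriv f) z

/-- `E` solves the extremal problem
`max {Re f^{(N+1)}(0) : f ∈ F_𝒞, ‖f‖_∞ ≤ 1}`, `N = κ 0`. -/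
def IsExtremal (κ : ℂ → ℕ) (E : ℂ → ℂ) : Prop :=
  FC κ E ∧ (∀ z ∈ ball (0 : ℂ) 1, ‖E z‖ ≤ 1) ∧
    ∀ f : ℂ → ℂ, FC κ f → (∀ z ∈ ball (0 : ℂ) 1, ‖f z‖ ≤ 1) →
      (iteratedDeriv (κ 0 + 1) f 0).re ≤ (iteratedDeriv (κ 0 + 1) E 0).re

/-- conformal automorphisms of `𝔻` -/
def IsAut (T : ℂ → ℂ) : Prop :=
  DifferentiableOn ℂ T (ball 0 1) ∧ MapsTo T (ball 0 1) (ball 0 1) ∧
    ∃ S : ℂ → ℂ, DifferentiableOn ℂ S (ball 0 1) ∧ MapsTo S (ball 0 1) (ball 0 1) ∧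
      (∀ z ∈ ball (0 : ℂ) 1, S (T z) = z) ∧ ∀ z ∈ ball (0 : ℂ) 1, T (S z) = z

/-- maximal Blaschke products: `T ∘ B_𝒞` -/
def IsMaximalBP (F : ℂ → ℂ) : Prop :=
  ∃ κ : ℂ → ℕ, IsCriticalSet κ ∧ ∃ E T : ℂ → ℂ, IsExtremal κ E ∧ IsAut T ∧
    ∀ z ∈ ball (0 : ℂ) 1, F z = T (E z)

end Pool.Agent.MPce8478
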