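import Pool.Agent.MPce8478.Heins1

set_option autoImplicit false

open Set Filter Topology Metric

namespace Pool.Agent.MPce8478

theorem anAt {U : Set ℂ} (hU : IsOpen U) {φ : ℂ → ℂ} (hφ : DifferentiableOn ℂ φ U) {z : ℂ}
    (hz : z ∈ U) : AnalyticAt ℂ φ z := hφ.analyticAt (hU.mem_nhds hz)

/-- splitting off a zero -/
theorem divide_one {U : Set ℂ} (hU : IsOpen U) {z₀ : ℂ} (hz₀ : z₀ ∈ U) (m : ℕ) :
    ∀ φ : ℂ → ℂ, DifferentiableOn ℂ φ U → analyticOrderAt φ z₀ = m →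
      ∃ φ₁ : ℂ → ℂ, DifferentiableOn ℂ φ₁ U ∧ φ₁ z₀ ≠ 0 ∧ ∀ z, φ z = (z - z₀) ^ m * φ₁ z := by
  induction m with
  | zero =>
    intro φ hφ hm
    refine ⟨φ, hφ, ?_, fun z => by simp⟩
    exact ((anAt hU hφ hz₀).analyticOrderAt_eq_zero).1 (by simpa using hm)
  | succ m ih =>
    intro φ hφ hm
    have h0 : φ z₀ = 0 := by
      apply apply_eq_zero_of_analyticOrderAt_ne_zero (𝕜 := ℂ)
      rw [hm]
      simp
    set ψ := dslope φ z₀ with hψ
    have hψd : DifferentiableOn ℂ ψ U := (Complex.differentiableOn_dslope (hU.mem_nhds hz₀)).2 hφ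
    have hfac : ∀ z, φ z = (z - z₀) * ψ z := by
      intro z
      have := sub_smul_dslope φ z₀ z
      rw [h0, sub_zero, smul_eq_mul] at this
      exact this.symm
    have hord : analyticOrderAt ψ z₀ = m := by
      have h1 : φ = (fun z => z - z₀) * ψ := funext hfac
      have h2 : analyticOrderAt φ z₀ = 1 + analyticOrderAt ψ z₀ := by
        rw [h1, analyticOrderAt_mul (by fun_prop) (anAt hU hψd hz₀)]
        congr 1
        exact analyticOrderAt_id_sub_const_self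
      rw [hm] at h2
      push_cast at h2
      rw [add_comm (m : ℕ∞) 1] at h2
      exact (ENat.add_right_injective_of_ne_top (n := 1) (by simp) h2).symm
    obtain ⟨φ₁, h1, h2, h3⟩ := ih ψ hψd hord
    refine ⟨φ₁, h1, h2, fun z => ?_⟩
    rw [hfac, h3]
    ring

/-- factorisation of the finitely many zeros -/
theorem factor_list {U : Set ℂ} (hU : IsOpen U) (hUc : IsPreconnected U)
    (hBU : ball (0 : ℂ) 1 ⊆ U) (S : Finset ℂ) :
    ∀ φ : ℂ → ℂ, DifferentiableOn ℂ φ U → (∃ z ∈ U, φ z ≠ 0) →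
      (∀ z ∈ ball (0 : ℂ) 1, φ z = 0 → z ∈ S) →
      ∃ (L : List ℂ) (a : ℂ → ℂ), (∀ w ∈ L, ‖w‖ < 1) ∧ DifferentiableOn ℂ a U ∧
        (∀ z ∈ ball (0 : ℂ) 1, a z ≠ 0) ∧ ∀ z, φ z = (L.map fun w => z - w).prod * a z := by
  classical
  induction S using Finset.induction_on with
  | empty =>
    intro φ hφ _ hz
    refine ⟨[], φ, by simp, hφ, fun z hz1 h0 => by simpa using hz z hz1 h0, fun z => by simp⟩
  | insert z₀ S hz₀S ih =>
    intro φ hφ hne hz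
    by_cases hz₀ : z₀ ∈ ball (0 : ℂ) 1
    swap
    · refine ih φ hφ hne fun z hz1 h0 => ?_
      rcases Finset.mem_insert.1 (hz z hz1 h0) with rfl | h
      · exact absurd hz1 hz₀
      · exact h
    have hord : analyticOrderAt φ z₀ ≠ ⊤ := by
      obtain ⟨w, hw, hφw⟩ := hne
      have han : AnalyticOnNhd ℂ φ U := fun z hz => anAt hU hφ hz
      refine han.analyticOrderAt_ne_top_of_isPreconnected hUc hw (hBU hz₀) ?_
      rw [((anAt hU hφ hw).analyticOrderAt_eq_zero).2 hφw]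
      simp
    obtain ⟨m, hm⟩ := ENat.ne_top_iff_exists.1 hord
    obtain ⟨φ₁, h1, h2, h3⟩ := divide_one hU (hBU hz₀) m φ hφ hm.symm
    obtain ⟨L, a, g1, g2, g3, g4⟩ := ih φ₁ h1 ⟨z₀, hBU hz₀, h2⟩ (fun z hz1 h0 => by
      have h5 : φ z = 0 := by rw [h3, h0, mul_zero]
      rcases Finset.mem_insert.1 (hz z hz1 h5) with rfl | h
      · exact absurd h0 h2
      · exact h)
    refine ⟨List.replicate m z₀ ++ L, a, ?_, g2, g3, fun z => ?_⟩
    · intro w hw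
      rcases List.mem_append.1 hw with h | h
      · rw [List.eq_of_mem_replicate h]; exact mem_ball_zero_iff.1 hz₀
      · exact g1 w h
    · rw [h3, g4, List.map_append, List.prod_append, List.map_replicate, List.prod_replicate]
      ring

/-- zero factorisation on a disc of radius larger than one -/
theorem factor {R : ℝ} (hR : 1 < R) {φ : ℂ → ℂ} (hφ : DifferentiableOn ℂ φ (ball 0 R))
    (hne : ∃ z ∈ ball (0 : ℂ) R, φ z ≠ 0) :
    ∃ (n : ℕ) (Z : Fin n → ℂ) (a : ℂ → ℂ), (∀ k, ‖Z k‖ < 1) ∧ DifferentiableOn ℂ a (ball 0 R) ∧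
      (∀ z ∈ ball (0 : ℂ) 1, a z ≠ 0) ∧ ∀ z, φ z = PP Z z * a z := by
  have hUc : IsPreconnected (ball (0 : ℂ) R) := (convex_ball 0 R).isPreconnected
  have han : AnalyticOnNhd ℂ φ (ball 0 R) := fun z hz => anAt isOpen_ball hφ hz
  have hfin : {z : ℂ | z ∈ closedBall (0 : ℂ) 1 ∧ φ z = 0}.Finite := by
    by_contra hinf
    obtain ⟨x, hxK, hx⟩ := Set.Infinite.exists_accPt_of_subset_isCompact hinf
      (isCompact_closedBall (0 : ℂ) 1) (fun z hz => hz.1)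
    have hxU : x ∈ ball (0 : ℂ) R := closedBall_subset_ball hR hxK
    rw [accPt_iff_frequently] at hx
    have hfr : ∃ᶠ z in 𝓝[≠] x, φ z = 0 := by
      rw [frequently_nhdsWithin_iff]
      exact hx.mono fun z hz => ⟨hz.2.2, hz.1⟩
    obtain ⟨z, hz, hzne⟩ := hne
    exact hzne (han.eqOn_zero_of_preconnected_of_frequently_eq_zero hUc hxU hfr hz)
  obtain ⟨L, a, g1, g2, g3, g4⟩ := factor_list isOpen_ball hUc (ball_subset_ball hR.le)
    hfin.toFinset φ hφ hne (fun z hz h0 => by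
      rw [Set.Finite.mem_toFinset]
      exact ⟨ball_subset_closedBall hz, h0⟩)
  refine ⟨L.length, fun k => L[k], a, fun k => g1 _ (List.getElem_mem _), g2, g3, fun z => ?_⟩
  rw [g4]
  congr 1
  unfold PP
  exact (Fin.prod_univ_fun_getElem L (fun w => z - w)).symm

/-- quotient of two analytic functions -/
theorem quotient {U : Set ℂ} (hU : IsOpen U) {φ ψ : ℂ → ℂ} (hφ : DifferentiableOn ℂ φ U)
    (hψ : DifferentiableOn ℂ ψ U) (hfin : ∀ z ∈ U, analyticOrderAt ψ z ≠ ⊤)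
    (hord : ∀ z ∈ U, analyticOrderAt ψ z ≤ analyticOrderAt φ z) :
    ∃ m : ℂ → ℂ, DifferentiableOn ℂ m U ∧ ∀ z ∈ U, φ z = ψ z * m z := by
  set m : ℂ → ℂ := fun z => limUnder (𝓝[≠] z) (fun w => φ w / ψ w) with hm
  -- local description
  have hloc : ∀ z₀ ∈ U, ∃ m₀ : ℂ → ℂ, AnalyticAt ℂ m₀ z₀ ∧ m =ᶠ[𝓝 z₀] m₀ ∧
      ∀ᶠ z in 𝓝 z₀, φ z = ψ z * m₀ z := by
    intro z₀ hz₀
    obtain ⟨k, hk⟩ := ENat.ne_top_iff_exists.1 (hfin z₀ hz₀)
    obtain ⟨ψ₁, a1, n1, e1⟩ := ((anAt hU hψ hz₀).analyticOrderAt_eq_natCast).1 hk.symm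
    have h2 := hord z₀ hz₀
    rw [← hk] at h2
    obtain ⟨φ₁, a2, e2⟩ := (natCast_le_analyticOrderAt (anAt hU hφ hz₀)).1 h2
    have a3 : AnalyticAt ℂ (fun z => φ₁ z / ψ₁ z) z₀ := a2.div a1 n1
    have n1' : ∀ᶠ z in 𝓝 z₀, ψ₁ z ≠ 0 := a1.continuousAt.eventually (isOpen_ne.mem_nhds n1)
    have hev : ∀ᶠ z in 𝓝 z₀, φ z = ψ z * (φ₁ z / ψ₁ z) := by
      filter_upwards [e1, e2, n1'] with z h3 h4 h5
      rw [h3, h4, smul_eq_mul, smul_eq_mul]
      field_simp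
    refine ⟨fun z => φ₁ z / ψ₁ z, a3, ?_, hev⟩
    -- m equals m₀ near z₀
    have hev2 : ∀ᶠ z in 𝓝 z₀, (∀ᶠ w in 𝓝 z, φ w = ψ w * (φ₁ w / ψ₁ w)) ∧
        ContinuousAt (fun z => φ₁ z / ψ₁ z) z ∧ ∀ᶠ w in 𝓝[≠] z, ψ w ≠ 0 := by
      have c1 := hev.eventually_nhds
      have c2 : ∀ᶠ z in 𝓝 z₀, ContinuousAt (fun z => φ₁ z / ψ₁ z) z :=
        a3.eventually_analyticAt.mono fun z hz => hz.continuousAt
      have c3 : ∀ᶠ z in 𝓝 z₀, z ∈ U := hU.mem_nhds hz₀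
      filter_upwards [c1, c2, c3] with z d1 d2 d3
      refine ⟨d1, d2, ?_⟩
      rcases (anAt hU hψ d3).eventually_eq_zero_or_eventually_ne_zero with h | h
      · exact absurd (analyticOrderAt_eq_top.2 h) (hfin z d3)
      · exact h
    filter_upwards [hev2] with z hz
    obtain ⟨d1, d2, d3⟩ := hz
    refine Tendsto.limUnder_eq ?_
    refine (d2.tendsto.mono_left nhdsWithin_le_nhds).congr' ?_
    filter_upwards [d3, d1.filter_mono nhdsWithin_le_nhds] with w h5 h6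
    rw [h6, mul_div_cancel_left₀ _ h5]
  refine ⟨m, fun z hz => ?_, fun z hz => ?_⟩
  · obtain ⟨m₀, h1, h2, _⟩ := hloc z hz
    exact ((h1.differentiableAt).congr_of_eventuallyEq h2).differentiableWithinAt
  · obtain ⟨m₀, h1, h2, h3⟩ := hloc z hz
    rw [h3.self_of_nhds, h2.self_of_nhds]

end Pool.Agent.MPce8478
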