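import Pool.Agent.MPce8478.Defs

set_option autoImplicit false

open Set Filter Topology Metric Polynomial

namespace Pool.Agent.MPce8478

variable {n : ℕ}

/-- `∏ (z - z_k)` -/
noncomputable def PP (Z : Fin n → ℂ) (z : ℂ) : ℂ := ∏ k, (z - Z k)

/-- the polynomial `∏ (X - z_k)(1 - \bar z_k X)` -/
noncomputable def WW (Z : Fin n → ℂ) : ℂ[X] :=
  ∏ k, ((X - C (Z k)) * (1 - C ((starRingEnd ℂ) (Z k)) * X))

theorem WW_natDegree (Z : Fin n → ℂ) : (WW Z).natDegree ≤ 2 * n := by
  unfold WW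
  refine (natDegree_prod_le _ _).trans ?_
  have h : ∀ k ∈ (Finset.univ : Finset (Fin n)),
      ((X - C (Z k)) * (1 - C ((starRingEnd ℂ) (Z k)) * X)).natDegree ≤ 2 := by
    intro k _
    refine natDegree_mul_le.trans ?_
    have h1 : (X - C (Z k)).natDegree = 1 := natDegree_X_sub_C _
    have h2 : (1 - C ((starRingEnd ℂ) (Z k)) * X).natDegree ≤ 1 := by
      refine (natDegree_sub_le _ _).trans (max_le (by simp) ?_)
      exact (natDegree_C_mul_le _ _).trans natDegree_X_le
    omega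
  refine (Finset.sum_le_card_nsmul _ _ 2 h).trans_eq ?_
  simp [mul_comm]

theorem WW_eval (Z : Fin n → ℂ) (z : ℂ) :
    (WW Z).eval z = PP Z z * ∏ k, (1 - (starRingEnd ℂ) (Z k) * z) := by
  unfold WW PP
  rw [eval_prod, ← Finset.prod_mul_distrib]
  simp

theorem conj_of_unit {z : ℂ} (hz : ‖z‖ = 1) : z * (starRingEnd ℂ) z = 1 := by
  rw [Complex.mul_conj, Complex.normSq_eq_norm_sq, hz]; simp

theorem WW_circle (Z : Fin n → ℂ) {z : ℂ} (hz : ‖z‖ = 1) :
    (WW Z).eval z = z ^ n * ((‖PP Z z‖ ^ 2 : ℝ) : ℂ) := by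
  rw [WW_eval]
  unfold PP
  have h1 : ∀ k, (z - Z k) * (1 - (starRingEnd ℂ) (Z k) * z) = z * ((‖z - Z k‖ ^ 2 : ℝ) : ℂ) := by
    intro k
    have h2 : ((‖z - Z k‖ ^ 2 : ℝ) : ℂ) = (z - Z k) * (starRingEnd ℂ) (z - Z k) := by
      rw [Complex.mul_conj, Complex.normSq_eq_norm_sq]
    rw [h2, map_sub]
    linear_combination (-(z - Z k)) * conj_of_unit hz
  rw [← Finset.prod_mul_distrib, Finset.prod_congr rfl fun k _ => h1 k, Finset.prod_mul_distrib,
    Finset.prod_const, Finset.card_univ, Fintype.card_fin, norm_prod, ← Finset.prod_pow,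
    Complex.ofReal_prod]

theorem PP_pos (Z : Fin n → ℂ) (hZ : ∀ k, ‖Z k‖ < 1) {z : ℂ} (hz : ‖z‖ = 1) : 0 < ‖PP Z z‖ := by
  unfold PP
  rw [norm_prod]
  refine Finset.prod_pos fun k _ => norm_pos_iff.2 (sub_ne_zero.2 ?_)
  rintro rfl
  have := hZ k
  rw [hz] at this
  exact lt_irrefl _ this

/-- pair interaction -/
noncomputable def GG (t : Fin (n + 1) → Circle) (i k : Fin (n + 1)) : ℝ :=
  if i = k then 1 else ‖(t i : ℂ) - t k‖

/-- the energy -/
noncomputable def En (Z : Fin n → ℂ) (t : Fin (n + 1) → Circle) : ℝ :=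
  ∏ i, ((∏ k, GG t i k) / ‖PP Z (t i)‖ ^ 2)

theorem GG_nonneg (t : Fin (n + 1) → Circle) (i k : Fin (n + 1)) : 0 ≤ GG t i k := by
  unfold GG; split_ifs <;> positivity

theorem En_continuous (Z : Fin n → ℂ) (hZ : ∀ k, ‖Z k‖ < 1) : Continuous (En Z) := by
  have hcoe : ∀ i : Fin (n + 1), Continuous fun t : Fin (n + 1) → Circle => ((t i : Circle) : ℂ) :=
    fun i => continuous_subtype_val.comp (continuous_apply i)
  unfold En
  refine continuous_finsetProd _ fun i _ => ?_
  refine Continuous.div ?_ ?_ ?_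
  · refine continuous_finsetProd _ fun k _ => ?_
    unfold GG
    split_ifs
    · exact continuous_const
    · exact (((hcoe i).sub (hcoe k))).norm
  · have h1 : Continuous fun t : Fin (n + 1) → Circle => PP Z (t i) := by
      unfold PP
      refine continuous_finsetProd _ fun k _ => ?_
      exact (hcoe i).sub continuous_const
    exact h1.norm.pow 2
  · intro t
    have := PP_pos Z hZ (Circle.norm_coe (t i))
    positivity

/-- the part of the energy which depends on the `j`-th point -/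
noncomputable def RR (Z : Fin n → ℂ) (t : Fin (n + 1) → Circle) (j : Fin (n + 1)) (s : ℂ) : ℝ :=
  (∏ i ∈ Finset.univ.erase j, ‖s - t i‖) ^ 2 / ‖PP Z s‖ ^ 2

theorem En_split (Z : Fin n → ℂ) (u : Fin (n + 1) → Circle) (j : Fin (n + 1)) :
    En Z u = RR Z u j (u j) * ∏ i ∈ Finset.univ.erase j,
      ((∏ k ∈ Finset.univ.erase j, GG u i k) / ‖PP Z (u i)‖ ^ 2) := by
  unfold En
  rw [← Finset.mul_prod_erase Finset.univ _ (Finset.mem_univ j)]
  have h1 : ∏ k, GG u j k = ∏ k ∈ Finset.univ.erase j, ‖(u j : ℂ) - u k‖ := by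
    rw [← Finset.mul_prod_erase Finset.univ _ (Finset.mem_univ j)]
    have : GG u j j = 1 := by simp [GG]
    rw [this, one_mul]
    refine Finset.prod_congr rfl fun k hk => ?_
    have hkj : j ≠ k := (Finset.ne_of_mem_erase hk).symm
    simp [GG, hkj]
  have h2 : ∀ i ∈ Finset.univ.erase j, (∏ k, GG u i k) / ‖PP Z (u i)‖ ^ 2 =
      ‖(u j : ℂ) - u i‖ * ((∏ k ∈ Finset.univ.erase j, GG u i k) / ‖PP Z (u i)‖ ^ 2) := by
    intro i hi
    rw [← Finset.mul_prod_erase Finset.univ _ (Finset.mem_univ j)]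
    have hij : i ≠ j := Finset.ne_of_mem_erase hi
    have : GG u i j = ‖(u j : ℂ) - u i‖ := by
      simp only [GG, if_neg hij]
      exact norm_sub_rev _ _
    rw [this]
    ring
  rw [h1, Finset.prod_congr rfl h2, Finset.prod_mul_distrib]
  unfold RR
  ring

/-- existence of a maximiser -/
theorem exists_max (Z : Fin n → ℂ) (hZ : ∀ k, ‖Z k‖ < 1) :
    ∃ t : Fin (n + 1) → Circle, Function.Injective t ∧
      ∀ (j : Fin (n + 1)) (s : Circle), RR Z t j s ≤ RR Z t j (t j) := by
  obtain ⟨t, -, ht⟩ := (isCompact_univ (X := Fin (n + 1) → Circle)).exists_isMaxOn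
    univ_nonempty (En_continuous Z hZ).continuousOn
  have hmax : ∀ u, En Z u ≤ En Z t := fun u => ht (mem_univ u)
  have hPP : ∀ s : Circle, 0 < ‖PP Z (s : ℂ)‖ := fun s => PP_pos Z hZ (Circle.norm_coe s)
  -- positivity
  have hpos : 0 < En Z t := by
    set u : Fin (n + 1) → Circle := fun j => Circle.exp ((j : ℕ) / (n + 1 : ℝ)) with hu
    have hinj : Function.Injective u := by
      intro i j hij
      have harg : ∀ j : Fin (n + 1), Complex.arg (u j) = (j : ℕ) / (n + 1 : ℝ) := by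
        intro j
        have hn : (0 : ℝ) < n + 1 := by positivity
        have h1 : ((j : ℕ) : ℝ) / (n + 1 : ℝ) < 1 := by
          rw [div_lt_one hn]
          exact_mod_cast j.2
        have h0 : 0 ≤ ((j : ℕ) : ℝ) / (n + 1 : ℝ) := by positivity
        have hpi := Real.pi_gt_three
        exact Circle.arg_exp (by linarith) (by linarith)
      have h2 := congrArg (fun c : Circle => Complex.arg c) hij
      simp only [harg] at h2
      have hn : (n + 1 : ℝ) ≠ 0 := by positivity
      rw [div_left_inj' hn] at h2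
      exact Fin.ext (by exact_mod_cast h2)
    refine lt_of_lt_of_le ?_ (hmax u)
    unfold En
    refine Finset.prod_pos fun i _ => div_pos (Finset.prod_pos fun k _ => ?_) ?_
    · unfold GG
      split_ifs with h
      · exact one_pos
      · refine norm_pos_iff.2 (sub_ne_zero.2 fun h1 => h ?_)
        exact hinj (Circle.coe_injective h1)
    · have := hPP (u i)
      positivity
  refine ⟨t, ?_, ?_⟩
  · intro i j hij
    by_contra hne
    have h0 : En Z t = 0 := by
      unfold En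
      refine Finset.prod_eq_zero (Finset.mem_univ i) ?_
      rw [Finset.prod_eq_zero (Finset.mem_univ j), zero_div]
      simp [GG, hne, hij]
    rw [h0] at hpos
    exact lt_irrefl _ hpos
  · intro j s
    set u := Function.update t j s with hu
    have huj : u j = s := Function.update_self ..
    have hui : ∀ i, i ≠ j → u i = t i := fun i hi => Function.update_of_ne hi _ _
    have h1 := hmax u
    rw [En_split Z u j, En_split Z t j] at h1
    have h2 : ∏ i ∈ Finset.univ.erase j, ((∏ k ∈ Finset.univ.erase j, GG u i k) /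
        ‖PP Z (u i)‖ ^ 2) = ∏ i ∈ Finset.univ.erase j, ((∏ k ∈ Finset.univ.erase j, GG t i k) /
        ‖PP Z (t i)‖ ^ 2) := by
      refine Finset.prod_congr rfl fun i hi => ?_
      rw [hui i (Finset.ne_of_mem_erase hi)]
      congr 1
      refine Finset.prod_congr rfl fun k hk => ?_
      unfold GG
      rw [hui i (Finset.ne_of_mem_erase hi), hui k (Finset.ne_of_mem_erase hk)]
    have h3 : RR Z u j (u j) = RR Z t j s := by
      unfold RR
      rw [huj]
      congr 2
      exact Finset.prod_congr rfl fun i hi => by rw [hui i (Finset.ne_of_mem_erase hi)]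
    rw [h2, h3] at h1
    refine le_of_mul_le_mul_right h1 ?_
    rw [En_split Z t j] at hpos
    have hRR : 0 ≤ RR Z t j (t j) := by unfold RR; positivity
    exact pos_of_mul_pos_right hpos hRR

/-- the polynomial `∏_{i ≠ j} (X - t_i)²` -/
noncomputable def VV (t : Fin (n + 1) → Circle) (j : Fin (n + 1)) : ℂ[X] :=
  ∏ i ∈ Finset.univ.erase j, (X - C (t i : ℂ)) ^ 2

theorem VV_eval (t : Fin (n + 1) → Circle) (j : Fin (n + 1)) (z : ℂ) :
    (VV t j).eval z = ∏ i ∈ Finset.univ.erase j, (z - t i) ^ 2 := by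
  unfold VV
  rw [eval_prod]
  simp

theorem card_erase_univ (j : Fin (n + 1)) : (Finset.univ.erase j).card = n := by
  rw [Finset.card_erase_of_mem (Finset.mem_univ j), Finset.card_univ, Fintype.card_fin]
  rfl

theorem VV_natDegree (t : Fin (n + 1) → Circle) (j : Fin (n + 1)) : (VV t j).natDegree = 2 * n := by
  unfold VV
  rw [natDegree_prod_of_monic _ _ fun i _ => (monic_X_sub_C _).pow 2]
  simp [natDegree_pow, card_erase_univ, mul_comm]

theorem VV_circle (t : Fin (n + 1) → Circle) (j : Fin (n + 1)) {z : ℂ} (hz : ‖z‖ = 1) :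
    (VV t j).eval z = (∏ i ∈ Finset.univ.erase j, (-(t i : ℂ))) * (z ^ n *
      (((∏ i ∈ Finset.univ.erase j, ‖z - t i‖) ^ 2 : ℝ) : ℂ)) := by
  rw [VV_eval]
  have h1 : ∀ i ∈ Finset.univ.erase j, (z - t i) ^ 2 =
      (-(t i : ℂ)) * (z * ((‖z - t i‖ ^ 2 : ℝ) : ℂ)) := by
    intro i _
    have h2 : ((‖z - t i‖ ^ 2 : ℝ) : ℂ) = (z - t i) * (starRingEnd ℂ) (z - t i) := by
      rw [Complex.mul_conj, Complex.normSq_eq_norm_sq]
    rw [h2, map_sub]
    have e1 := conj_of_unit hz
    have e2 := conj_of_unit (Circle.norm_coe (t i))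
    linear_combination ((t i : ℂ) * (z - t i)) * e1 - (z * (z - t i)) * e2
  rw [Finset.prod_congr rfl h1, Finset.prod_mul_distrib, Finset.prod_mul_distrib,
    Finset.prod_const, card_erase_univ, ← Finset.prod_pow, Complex.ofReal_prod]

/-- the equilibrium condition -/
theorem equilibrium (Z : Fin n → ℂ) (hZ : ∀ k, ‖Z k‖ < 1) (t : Fin (n + 1) → Circle)
    (ht : ∀ (j : Fin (n + 1)) (s : Circle), RR Z t j s ≤ RR Z t j (t j)) (j : Fin (n + 1)) :
    (derivative (VV t j)).eval (t j : ℂ) * (WW Z).eval (t j : ℂ) =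
      (VV t j).eval (t j : ℂ) * (derivative (WW Z)).eval (t j : ℂ) := by
  set θ₀ : ℝ := Complex.arg (t j) with hθ₀
  have hexp : Complex.exp (θ₀ * Complex.I) = t j := by
    have := Circle.exp_arg (t j)
    rw [← Circle.coe_exp, this]
  set c : ℂ := ∏ i ∈ Finset.univ.erase j, (-(t i : ℂ)) with hc
  have hc0 : c ≠ 0 := Finset.prod_ne_zero_iff.2 fun i _ => neg_ne_zero.2 (Circle.coe_ne_zero _)
  set Γ : ℝ → ℂ := fun θ => (VV t j).eval (Complex.exp (θ * Complex.I)) /
    (WW Z).eval (Complex.exp (θ * Complex.I)) / c with hΓ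
  have hnorm : ∀ θ : ℝ, ‖Complex.exp (θ * Complex.I)‖ = 1 := Complex.norm_exp_ofReal_mul_I
  have hWne : ∀ z : ℂ, ‖z‖ = 1 → (WW Z).eval z ≠ 0 := by
    intro z hz
    rw [WW_circle Z hz]
    have hz0 : z ≠ 0 := by rw [← norm_ne_zero_iff, hz]; norm_num
    refine mul_ne_zero (pow_ne_zero _ hz0) ?_
    rw [Complex.ofReal_ne_zero]
    have := PP_pos Z hZ hz
    positivity
  have hΓval : ∀ θ : ℝ, Γ θ = ((RR Z t j (Complex.exp (θ * Complex.I)) : ℝ) : ℂ) := by
    intro θ
    simp only [hΓ]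
    rw [VV_circle t j (hnorm θ), WW_circle Z (hnorm θ)]
    unfold RR
    have hz0 : Complex.exp (θ * Complex.I) ^ n ≠ 0 := pow_ne_zero _ (Complex.exp_ne_zero _)
    have hP0 : ((‖PP Z (Complex.exp (θ * Complex.I))‖ ^ 2 : ℝ) : ℂ) ≠ 0 := by
      rw [Complex.ofReal_ne_zero]
      have := PP_pos Z hZ (hnorm θ)
      positivity
    rw [Complex.ofReal_div, ← hc]
    field_simp
  -- derivative
  have hd0 : HasDerivAt (fun θ : ℝ => Complex.exp (θ * Complex.I))
      (Complex.exp (θ₀ * Complex.I) * Complex.I) θ₀ := by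
    have h1 : HasDerivAt (fun θ : ℝ => (θ : ℂ) * Complex.I) Complex.I θ₀ := by
      have := (Complex.ofRealCLM.hasDerivAt (x := θ₀)).mul_const Complex.I
      simpa using this
    exact h1.cexp
  rw [hexp] at hd0
  have hdV : HasDerivAt (fun θ : ℝ => (VV t j).eval (Complex.exp (θ * Complex.I)))
      ((derivative (VV t j)).eval (t j : ℂ) * ((t j : ℂ) * Complex.I)) θ₀ := by
    have h1 : HasDerivAt (fun z : ℂ => (VV t j).eval z) ((derivative (VV t j)).eval (t j : ℂ))
        (Complex.exp (θ₀ * Complex.I)) := by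
      rw [hexp]; exact (VV t j).hasDerivAt _
    exact h1.comp θ₀ hd0
  have hdW : HasDerivAt (fun θ : ℝ => (WW Z).eval (Complex.exp (θ * Complex.I)))
      ((derivative (WW Z)).eval (t j : ℂ) * ((t j : ℂ) * Complex.I)) θ₀ := by
    have h1 : HasDerivAt (fun z : ℂ => (WW Z).eval z) ((derivative (WW Z)).eval (t j : ℂ))
        (Complex.exp (θ₀ * Complex.I)) := by
      rw [hexp]; exact (WW Z).hasDerivAt _
    exact h1.comp θ₀ hd0
  have hWj := hWne (t j : ℂ) (Circle.norm_coe _)
  have hdΓ := (hdV.div hdW (by rw [hexp]; exact hWj)).div_const c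
  rw [hexp] at hdΓ
  set A' : ℂ := ((derivative (VV t j)).eval (t j : ℂ) * ((t j : ℂ) * Complex.I) *
    (WW Z).eval (t j : ℂ) - (VV t j).eval (t j : ℂ) * ((derivative (WW Z)).eval (t j : ℂ) *
      ((t j : ℂ) * Complex.I))) / (WW Z).eval (t j : ℂ) ^ 2 / c with hA'
  have hdΓ' : HasDerivAt Γ A' θ₀ := hdΓ
  -- real part
  have hre : HasDerivAt (fun θ : ℝ => (Γ θ).re) A'.re θ₀ :=
    (Complex.reCLM.hasFDerivAt.comp_hasDerivAt θ₀ hdΓ')
  have him : HasDerivAt (fun θ : ℝ => (Γ θ).im) A'.im θ₀ :=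
    (Complex.imCLM.hasFDerivAt.comp_hasDerivAt θ₀ hdΓ')
  have hre0 : A'.re = 0 := by
    refine IsLocalMax.hasDerivAt_eq_zero (f := fun θ : ℝ => (Γ θ).re) (a := θ₀) ?_ hre
    refine Eventually.of_forall fun θ => ?_
    simp only [hΓval, Complex.ofReal_re]
    have := ht j (Circle.exp θ)
    rw [Circle.coe_exp] at this
    rwa [hexp]
  have him0 : A'.im = 0 := by
    have h1 : (fun θ : ℝ => (Γ θ).im) = fun _ => 0 := by
      funext θ; rw [hΓval, Complex.ofReal_im]
    rw [h1] at him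
    exact him.unique (hasDerivAt_const _ _)
  have hA0 : A' = 0 := Complex.ext hre0 him0
  rw [hA', div_eq_zero_iff, or_iff_left hc0, div_eq_zero_iff,
    or_iff_left (pow_ne_zero 2 hWj)] at hA0
  have hI : (t j : ℂ) * Complex.I ≠ 0 := mul_ne_zero (Circle.coe_ne_zero _) Complex.I_ne_zero
  have h2 : ((derivative (VV t j)).eval (t j : ℂ) * (WW Z).eval (t j : ℂ) -
      (VV t j).eval (t j : ℂ) * (derivative (WW Z)).eval (t j : ℂ)) * ((t j : ℂ) * Complex.I) = 0 := by
    linear_combination hA0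
  rcases mul_eq_zero.1 h2 with h3 | h3
  · exact sub_eq_zero.1 h3
  · exact absurd h3 hI

end Pool.Agent.MPce8478
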