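import Pool.Agent.MPce8478.Defs

set_option autoImplicit false

open Set Filter Topology Metric

namespace Pool.Agent.MPce8478

/-- the pull-back of the hyperbolic density -/
noncomputable def pb (f : ℂ → ℂ) (z : ℂ) : ℝ := ‖deriv f z‖ / (1 - ‖f z‖ ^ 2)

/-- Möbius map -/
noncomputable def mb (a w : ℂ) : ℂ := (w - a) / (1 - (starRingEnd ℂ) a * w)

theorem one_sub_sq_pos {w : ℂ} (hw : ‖w‖ < 1) : 0 < 1 - ‖w‖ ^ 2 := by
  have := norm_nonneg w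
  nlinarith

theorem den_ne {a w : ℂ} (ha : ‖a‖ < 1) (hw : ‖w‖ < 1) : 1 - (starRingEnd ℂ) a * w ≠ 0 := by
  intro h
  have h1 : (starRingEnd ℂ) a * w = 1 := (sub_eq_zero.1 h).symm
  have h2 := congrArg norm h1
  rw [norm_mul, Complex.norm_conj, norm_one] at h2
  nlinarith [norm_nonneg a, norm_nonneg w]

theorem norm_identity (a z : ℂ) : ‖1 - (starRingEnd ℂ) a * z‖ ^ 2 - ‖z - a‖ ^ 2 =
    (1 - ‖a‖ ^ 2) * (1 - ‖z‖ ^ 2) := by
  rw [← Complex.normSq_eq_norm_sq, ← Complex.normSq_eq_norm_sq, ← Complex.normSq_eq_norm_sq,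
    ← Complex.normSq_eq_norm_sq]
  simp only [Complex.normSq_apply, Complex.sub_re, Complex.sub_im, Complex.mul_re, Complex.mul_im,
    Complex.conj_re, Complex.conj_im, Complex.one_re, Complex.one_im]
  ring

theorem one_sub_mb {a w : ℂ} (ha : ‖a‖ < 1) (hw : ‖w‖ < 1) :
    1 - ‖mb a w‖ ^ 2 = (1 - ‖a‖ ^ 2) * (1 - ‖w‖ ^ 2) / ‖1 - (starRingEnd ℂ) a * w‖ ^ 2 := by
  have h1 : 0 < ‖1 - (starRingEnd ℂ) a * w‖ := norm_pos_iff.2 (den_ne ha hw)
  unfold mb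
  rw [norm_div, div_pow, ← norm_identity, sub_div, div_self (pow_ne_zero 2 h1.ne')]

theorem mb_lt {a w : ℂ} (ha : ‖a‖ < 1) (hw : ‖w‖ < 1) : ‖mb a w‖ < 1 := by
  have h1 := one_sub_mb ha hw
  have h2 : 0 < (1 - ‖a‖ ^ 2) * (1 - ‖w‖ ^ 2) / ‖1 - (starRingEnd ℂ) a * w‖ ^ 2 := by
    have := one_sub_sq_pos ha
    have := one_sub_sq_pos hw
    have := norm_pos_iff.2 (den_ne ha hw)
    positivity
  nlinarith [norm_nonneg (mb a w)]

theorem mb_self (a : ℂ) : mb a a = 0 := by simp [mb]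

theorem mb_zero (a : ℂ) : mb a 0 = -a := by simp [mb]

theorem one_sub_conj_mul_self (a : ℂ) : 1 - (starRingEnd ℂ) a * a = ((1 - ‖a‖ ^ 2 : ℝ) : ℂ) := by
  rw [mul_comm, Complex.mul_conj, Complex.normSq_eq_norm_sq]
  push_cast
  rfl

theorem mb_inv {a w : ℂ} (ha : ‖a‖ < 1) (hw : ‖w‖ < 1) : mb (-a) (mb a w) = w := by
  have h1 := den_ne ha hw
  have h2 : ((1 - ‖a‖ ^ 2 : ℝ) : ℂ) ≠ 0 := by
    rw [Complex.ofReal_ne_zero]; exact (one_sub_sq_pos ha).ne'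
  have h3 := one_sub_conj_mul_self a
  unfold mb
  rw [map_neg]
  have e1 : (w - a) / (1 - (starRingEnd ℂ) a * w) - -a =
      w * ((1 - ‖a‖ ^ 2 : ℝ) : ℂ) / (1 - (starRingEnd ℂ) a * w) := by
    rw [← h3, eq_div_iff h1, sub_mul, div_mul_cancel₀ _ h1]; ring
  have e2 : 1 - -(starRingEnd ℂ) a * ((w - a) / (1 - (starRingEnd ℂ) a * w)) =
      ((1 - ‖a‖ ^ 2 : ℝ) : ℂ) / (1 - (starRingEnd ℂ) a * w) := by
    have e3 : (w - a) / (1 - (starRingEnd ℂ) a * w) * (1 - (starRingEnd ℂ) a * w) = w - a :=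
      div_mul_cancel₀ _ h1
    rw [← h3, eq_div_iff h1]
    linear_combination (starRingEnd ℂ) a * e3
  rw [e1, e2, div_div_div_cancel_right₀ h1, mul_div_cancel_right₀ _ h2]

theorem mb_inv' {a w : ℂ} (ha : ‖a‖ < 1) (hw : ‖w‖ < 1) : mb a (mb (-a) w) = w := by
  have := mb_inv (a := -a) (w := w) (by rwa [norm_neg]) hw
  rwa [neg_neg] at this

theorem hasDerivAt_mb {a w : ℂ} (ha : ‖a‖ < 1) (hw : ‖w‖ < 1) :
    HasDerivAt (mb a) (((1 - ‖a‖ ^ 2 : ℝ) : ℂ) / (1 - (starRingEnd ℂ) a * w) ^ 2) w := by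
  have h1 := den_ne ha hw
  have e1 : HasDerivAt (fun w : ℂ => w - a) 1 w := (hasDerivAt_id w).sub_const a
  have e2 : HasDerivAt (fun w : ℂ => 1 - (starRingEnd ℂ) a * w) (-(starRingEnd ℂ) a) w := by
    have := ((hasDerivAt_id w).const_mul ((starRingEnd ℂ) a)).const_sub 1
    simpa using this
  have e3 := e1.div e2 h1
  refine e3.congr_deriv ?_
  rw [← one_sub_conj_mul_self]
  ring

theorem differentiableOn_mb {a : ℂ} (ha : ‖a‖ < 1) : DifferentiableOn ℂ (mb a) (ball 0 1) :=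
  fun _ hw => (hasDerivAt_mb ha (mem_ball_zero_iff.1 hw)).differentiableAt.differentiableWithinAt

theorem isAut_mb {a : ℂ} (ha : ‖a‖ < 1) : IsAut (mb a) := by
  refine ⟨differentiableOn_mb ha, fun w hw => ?_, mb (-a),
    differentiableOn_mb (by rwa [norm_neg]), fun w hw => ?_, fun w hw => ?_, fun w hw => ?_⟩
  · exact mem_ball_zero_iff.2 (mb_lt ha (mem_ball_zero_iff.1 hw))
  · exact mem_ball_zero_iff.2 (mb_lt (by rwa [norm_neg]) (mem_ball_zero_iff.1 hw))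
  · exact mb_inv ha (mem_ball_zero_iff.1 hw)
  · exact mb_inv' ha (mem_ball_zero_iff.1 hw)

theorem diffAt {f : ℂ → ℂ} (hf : DifferentiableOn ℂ f (ball 0 1)) {z : ℂ} (hz : ‖z‖ < 1) :
    DifferentiableAt ℂ f z :=
  hf.differentiableAt (isOpen_ball.mem_nhds (mem_ball_zero_iff.2 hz))

/-- Schwarz–Pick -/
theorem schwarz_pick {f : ℂ → ℂ} (hf : DifferentiableOn ℂ f (ball 0 1))
    (hm : MapsTo f (ball 0 1) (ball 0 1)) {z : ℂ} (hz : ‖z‖ < 1) :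
    pb f z * (1 - ‖z‖ ^ 2) ≤ 1 := by
  have hfz : ‖f z‖ < 1 := mem_ball_zero_iff.1 (hm (mem_ball_zero_iff.2 hz))
  have hz' : ‖-z‖ < 1 := by rwa [norm_neg]
  set φ : ℂ → ℂ := fun w => mb (f z) (f (mb (-z) w)) with hφ
  have h1 : MapsTo (mb (-z)) (ball 0 1) (ball 0 1) := fun w hw =>
    mem_ball_zero_iff.2 (mb_lt hz' (mem_ball_zero_iff.1 hw))
  have hd : DifferentiableOn ℂ φ (ball 0 1) :=
    (differentiableOn_mb hfz).comp (hf.comp (differentiableOn_mb hz') h1) (hm.comp h1)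
  have h0 : φ 0 = 0 := by
    simp only [hφ]
    rw [mb_zero, neg_neg, mb_self]
  have hmaps : MapsTo φ (ball 0 1) (closedBall (φ 0) 1) := by
    intro w hw
    rw [h0, mem_closedBall_zero_iff]
    exact (mb_lt hfz (mem_ball_zero_iff.1 (hm (h1 hw)))).le
  have hle := Complex.norm_deriv_le_one_of_mapsTo_ball hd hmaps one_pos
  have e1 : HasDerivAt (mb (-z)) (((1 - ‖z‖ ^ 2 : ℝ) : ℂ)) 0 := by
    have := hasDerivAt_mb (a := -z) (w := 0) hz' (by simp)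
    simpa using this
  have e2 : HasDerivAt f (deriv f z) (mb (-z) 0) := by
    rw [mb_zero, neg_neg]; exact (diffAt hf hz).hasDerivAt
  have e3 := hasDerivAt_mb (a := f z) (w := f z) hfz hfz
  have e4 : HasDerivAt (mb (f z)) (((1 - ‖f z‖ ^ 2 : ℝ) : ℂ) /
      (1 - (starRingEnd ℂ) (f z) * f z) ^ 2) (f (mb (-z) 0)) := by
    rw [mb_zero, neg_neg]; exact e3
  have e5 : HasDerivAt φ (((1 - ‖f z‖ ^ 2 : ℝ) : ℂ) / (1 - (starRingEnd ℂ) (f z) * f z) ^ 2 *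
      (deriv f z * ((1 - ‖z‖ ^ 2 : ℝ) : ℂ))) 0 :=
    HasDerivAt.comp (h₂ := mb (f z)) (h := f ∘ mb (-z)) 0 e4 (e2.comp 0 e1)
  rw [e5.deriv, one_sub_conj_mul_self, norm_mul, norm_div, norm_pow, norm_mul] at hle
  have p1 := one_sub_sq_pos hfz
  have p2 := one_sub_sq_pos hz
  have n1 : ‖((1 - ‖f z‖ ^ 2 : ℝ) : ℂ)‖ = 1 - ‖f z‖ ^ 2 := by
    rw [Complex.norm_real, Real.norm_eq_abs, abs_of_pos p1]
  have n2 : ‖((1 - ‖z‖ ^ 2 : ℝ) : ℂ)‖ = 1 - ‖z‖ ^ 2 := by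
    rw [Complex.norm_real, Real.norm_eq_abs, abs_of_pos p2]
  rw [n1, n2] at hle
  unfold pb
  calc ‖deriv f z‖ / (1 - ‖f z‖ ^ 2) * (1 - ‖z‖ ^ 2) =
        (1 - ‖f z‖ ^ 2) / (1 - ‖f z‖ ^ 2) ^ 2 * (‖deriv f z‖ * (1 - ‖z‖ ^ 2)) := by
        field_simp
    _ ≤ 1 := hle

theorem aut_pb {T : ℂ → ℂ} (hT : IsAut T) {w : ℂ} (hw : ‖w‖ < 1) :
    pb T w * (1 - ‖w‖ ^ 2) = 1 := by
  obtain ⟨hd, hm, S, hSd, hSm, h1, h2⟩ := hT
  apply le_antisymm (schwarz_pick hd hm hw)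
  have hTw : ‖T w‖ < 1 := mem_ball_zero_iff.1 (hm (mem_ball_zero_iff.2 hw))
  have h3 := schwarz_pick hSd hSm hTw
  have hST : S (T w) = w := h1 w (mem_ball_zero_iff.2 hw)
  have h4 : deriv S (T w) * deriv T w = 1 := by
    have e1 := ((diffAt hSd hTw).hasDerivAt).comp w (diffAt hd hw).hasDerivAt
    have e2 : HasDerivAt (S ∘ T) 1 w := by
      refine (hasDerivAt_id w).congr_of_eventuallyEq ?_
      filter_upwards [isOpen_ball.mem_nhds (mem_ball_zero_iff.2 hw)] with z hz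
      exact h1 z hz
    exact e1.unique e2
  have h5 := congrArg norm h4
  rw [norm_mul, norm_one] at h5
  unfold pb at h3 ⊢
  rw [hST] at h3
  have p1 := one_sub_sq_pos hTw
  have p2 := one_sub_sq_pos hw
  have hT0 : 0 < ‖deriv T w‖ := by
    by_contra hcon
    have : ‖deriv T w‖ = 0 := le_antisymm (not_lt.1 hcon) (norm_nonneg _)
    rw [this, mul_zero] at h5
    norm_num at h5
  have h6 : ‖deriv S (T w)‖ = 1 / ‖deriv T w‖ := by
    rw [eq_div_iff hT0.ne']; exact h5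
  rw [h6, div_div, div_mul_eq_mul_div, one_mul, div_le_one (by positivity)] at h3
  rw [div_mul_eq_mul_div, le_div_iff₀ p1, one_mul]
  exact h3

theorem aut_deriv_ne {T : ℂ → ℂ} (hT : IsAut T) {w : ℂ} (hw : ‖w‖ < 1) : deriv T w ≠ 0 := by
  intro h0
  have := aut_pb hT hw
  unfold pb at this
  rw [h0, norm_zero, zero_div, zero_mul] at this
  norm_num at this

theorem pb_comp {T f : ℂ → ℂ} (hT : IsAut T) (hf : DifferentiableOn ℂ f (ball 0 1))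
    (hm : MapsTo f (ball 0 1) (ball 0 1)) {z : ℂ} (hz : ‖z‖ < 1) :
    pb (fun z => T (f z)) z = pb f z := by
  have hfz : ‖f z‖ < 1 := mem_ball_zero_iff.1 (hm (mem_ball_zero_iff.2 hz))
  have hd : HasDerivAt (fun z => T (f z)) (deriv T (f z) * deriv f z) z :=
    (diffAt hT.1 hfz).hasDerivAt.comp z (diffAt hf hz).hasDerivAt
  have h1 := aut_pb hT hfz
  unfold pb at h1 ⊢
  rw [hd.deriv, norm_mul]
  have p1 := one_sub_sq_pos hfz
  have p2 : 0 < 1 - ‖T (f z)‖ ^ 2 :=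
    one_sub_sq_pos (mem_ball_zero_iff.1 (hT.2.1 (mem_ball_zero_iff.2 hfz)))
  field_simp at h1 ⊢
  linear_combination ‖deriv f z‖ * h1

end Pool.Agent.MPce8478
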