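import Pool.Agent.MPce8478.Heins1
import Pool.Agent.MPce8478.Pick

set_option autoImplicit false

open Set Filter Topology Metric Polynomial

namespace Pool.Agent.MPce8478

variable {n : ℕ}

theorem VV_dvd (t : Fin (n + 1) → Circle) {i j : Fin (n + 1)} (hij : i ≠ j) :
    (X - C (t j : ℂ)) ^ 2 ∣ VV t i := by
  unfold VV
  exact Finset.dvd_prod_of_mem (fun i => (X - C (t i : ℂ)) ^ 2)
    (Finset.mem_erase.2 ⟨hij.symm, Finset.mem_univ j⟩)

theorem eval_of_dvd {p : ℂ[X]} {a : ℂ} (h : (X - C a) ^ 2 ∣ p) :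
    p.eval a = 0 ∧ (derivative p).eval a = 0 := by
  obtain ⟨r, rfl⟩ := h
  constructor
  · simp
  · simp [derivative_mul, derivative_pow]

theorem VV_ne (t : Fin (n + 1) → Circle) (ht : Function.Injective t) (j : Fin (n + 1)) :
    (VV t j).eval (t j : ℂ) ≠ 0 := by
  rw [VV_eval]
  refine Finset.prod_ne_zero_iff.2 fun i hi => pow_ne_zero 2 (sub_ne_zero.2 fun h => ?_)
  exact Finset.ne_of_mem_erase hi (ht (Circle.coe_injective h.symm))

/-- the coefficient -/
noncomputable def al (Z : Fin n → ℂ) (t : Fin (n + 1) → Circle) (j : Fin (n + 1)) : ℂ :=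
  (WW Z).eval (t j : ℂ) / (VV t j).eval (t j : ℂ)

theorem WW_eq (Z : Fin n → ℂ) (hZ : ∀ k, ‖Z k‖ < 1) (t : Fin (n + 1) → Circle)
    (hinj : Function.Injective t)
    (ht : ∀ (j : Fin (n + 1)) (s : Circle), RR Z t j s ≤ RR Z t j (t j)) :
    WW Z = ∑ j, C (al Z t j) * VV t j := by
  rw [← sub_eq_zero]
  set D := WW Z - ∑ j, C (al Z t j) * VV t j with hD
  by_contra hD0
  have hroot : ∀ j, (X - C (t j : ℂ)) ^ 2 ∣ D := by
    intro j
    have hV := VV_ne t hinj j
    have e1 : D.eval (t j : ℂ) = 0 := by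
      rw [hD, eval_sub, eval_finsetSum, Finset.sum_eq_single j]
      · rw [eval_mul, eval_C, al, div_mul_cancel₀ _ hV, sub_self]
      · intro i _ hij
        rw [eval_mul, (eval_of_dvd (VV_dvd t hij)).1, mul_zero]
      · intro h; exact absurd (Finset.mem_univ j) h
    have e2 : (derivative D).eval (t j : ℂ) = 0 := by
      rw [hD, derivative_sub, derivative_sum, eval_sub, eval_finsetSum, Finset.sum_eq_single j]
      · rw [derivative_C_mul, eval_mul, eval_C, al]
        have heq := equilibrium Z hZ t ht j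
        rw [sub_eq_zero, div_mul_eq_mul_div, eq_div_iff hV]
        linear_combination -heq
      · intro i _ hij
        rw [derivative_C_mul, eval_mul, (eval_of_dvd (VV_dvd t hij)).2, mul_zero]
      · intro h; exact absurd (Finset.mem_univ j) h
    have h1 : 1 < D.rootMultiplicity (t j : ℂ) :=
      (one_lt_rootMultiplicity_iff_isRoot hD0).2 ⟨e1, e2⟩
    exact (le_rootMultiplicity_iff hD0).1 h1
  have hprod : ∏ j, (X - C (t j : ℂ)) ^ 2 ∣ D := by
    refine Fintype.prod_dvd_of_coprime ?_ hroot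
    intro i j hij
    have h1 : IsCoprime (X - C (t i : ℂ)) (X - C (t j : ℂ)) :=
      pairwise_coprime_X_sub_C (s := fun j => (t j : ℂ)) (Circle.coe_injective.comp hinj) hij
    exact h1.pow
  have hdeg := natDegree_le_of_dvd hprod hD0
  have h1 : (∏ j, (X - C (t j : ℂ)) ^ 2).natDegree = 2 * (n + 1) := by
    rw [natDegree_prod_of_monic _ _ fun i _ => (monic_X_sub_C _).pow 2]
    simp [natDegree_pow, mul_comm]
  have h2 : D.natDegree ≤ 2 * n := by
    refine (natDegree_sub_le _ _).trans (max_le (WW_natDegree Z) ?_)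
    refine natDegree_sum_le_of_forall_le _ _ fun j _ => ?_
    exact (natDegree_C_mul_le _ _).trans (VV_natDegree t j).le
  omega

/-- the weight -/
noncomputable def be (Z : Fin n → ℂ) (t : Fin (n + 1) → Circle) (j : Fin (n + 1)) : ℝ :=
  ‖PP Z (t j)‖ ^ 2 / (∏ i ∈ Finset.univ.erase j, ‖(t j : ℂ) - t i‖) ^ 2

theorem be_pos (Z : Fin n → ℂ) (hZ : ∀ k, ‖Z k‖ < 1) (t : Fin (n + 1) → Circle)
    (hinj : Function.Injective t) (j : Fin (n + 1)) : 0 < be Z t j := by
  unfold be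
  have h1 := PP_pos Z hZ (Circle.norm_coe (t j))
  have h2 : 0 < ∏ i ∈ Finset.univ.erase j, ‖(t j : ℂ) - t i‖ :=
    Finset.prod_pos fun i hi => norm_pos_iff.2 (sub_ne_zero.2 fun h =>
      Finset.ne_of_mem_erase hi (hinj (Circle.coe_injective h.symm)))
  positivity

theorem al_eq (Z : Fin n → ℂ) (t : Fin (n + 1) → Circle) (hinj : Function.Injective t)
    (j : Fin (n + 1)) :
    al Z t j * (∏ i, (-(t i : ℂ))) = -(be Z t j : ℂ) * t j := by
  unfold al be
  rw [WW_circle Z (Circle.norm_coe (t j)), VV_circle t j (Circle.norm_coe (t j)),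
    ← Finset.mul_prod_erase Finset.univ _ (Finset.mem_univ j)]
  have h1 : ∏ i ∈ Finset.univ.erase j, (-(t i : ℂ)) ≠ 0 :=
    Finset.prod_ne_zero_iff.2 fun i _ => neg_ne_zero.2 (Circle.coe_ne_zero _)
  have h2 : (t j : ℂ) ^ n ≠ 0 := pow_ne_zero _ (Circle.coe_ne_zero _)
  have h3 : (((∏ i ∈ Finset.univ.erase j, ‖(t j : ℂ) - t i‖) ^ 2 : ℝ) : ℂ) ≠ 0 := by
    rw [Complex.ofReal_ne_zero]
    refine pow_ne_zero 2 (Finset.prod_ne_zero_iff.2 fun i hi => norm_ne_zero_iff.2
      (sub_ne_zero.2 fun h => ?_))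
    exact Finset.ne_of_mem_erase hi (hinj (Circle.coe_injective h.symm))
  rw [Complex.ofReal_div]
  field_simp

/-- the Herglotz function -/
noncomputable def FF (Z : Fin n → ℂ) (t : Fin (n + 1) → Circle) (z : ℂ) : ℂ :=
  ∑ j, (be Z t j : ℂ) * ((t j + z) / (t j - z))

theorem tz_ne (s : Circle) {z : ℂ} (hz : ‖z‖ < 1) : (s : ℂ) - z ≠ 0 := by
  refine sub_ne_zero.2 fun h => ?_
  have := Circle.norm_coe s
  rw [h] at this
  linarith

theorem FF_hasDerivAt (Z : Fin n → ℂ) (t : Fin (n + 1) → Circle) {z : ℂ} (hz : ‖z‖ < 1) :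
    HasDerivAt (FF Z t) (∑ j, (be Z t j : ℂ) * (2 * t j / (t j - z) ^ 2)) z := by
  unfold FF
  refine HasDerivAt.fun_sum fun j _ => HasDerivAt.const_mul _ ?_
  have h1 : HasDerivAt (fun z : ℂ => (t j : ℂ) + z) 1 z := (hasDerivAt_id z).const_add _
  have h2 : HasDerivAt (fun z : ℂ => (t j : ℂ) - z) (-1) z := (hasDerivAt_id z).const_sub _
  refine (h1.div h2 (tz_ne _ hz)).congr_deriv ?_
  ring

theorem FF_re (Z : Fin n → ℂ) (t : Fin (n + 1) → Circle) {z : ℂ} (hz : ‖z‖ < 1) :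
    (FF Z t z).re = (1 - ‖z‖ ^ 2) * ∑ j, be Z t j / ‖(t j : ℂ) - z‖ ^ 2 := by
  unfold FF
  rw [Complex.re_sum, Finset.mul_sum]
  refine Finset.sum_congr rfl fun j _ => ?_
  rw [Complex.re_ofReal_mul]
  have h0 := tz_ne (t j) hz
  have h1 : 0 < ‖(t j : ℂ) - z‖ := norm_pos_iff.2 h0
  have h2 : ((t j + z) / (t j - z)).re = (1 - ‖z‖ ^ 2) / ‖(t j : ℂ) - z‖ ^ 2 := by
    have h3 : (t j + z) / (t j - z) = (t j + z) * (starRingEnd ℂ) (t j - z) /
        ((‖(t j : ℂ) - z‖ ^ 2 : ℝ) : ℂ) := by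
      have h4 : ((‖(t j : ℂ) - z‖ ^ 2 : ℝ) : ℂ) = (t j - z) * (starRingEnd ℂ) (t j - z) := by
        rw [Complex.mul_conj, Complex.normSq_eq_norm_sq]
      have h5 : (starRingEnd ℂ) (t j - z) ≠ 0 := (map_ne_zero (starRingEnd ℂ)).2 h0
      rw [h4, mul_div_mul_right _ _ h5]
    rw [h3, Complex.div_ofReal_re]
    congr 1
    have h6 := Circle.norm_coe (t j)
    have h7 : ‖(t j : ℂ)‖ ^ 2 = 1 := by rw [h6]; norm_num
    rw [← h7, ← Complex.normSq_eq_norm_sq, ← Complex.normSq_eq_norm_sq]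
    simp only [Complex.normSq_apply, Complex.mul_re, Complex.add_re, Complex.add_im, map_sub,
      Complex.sub_re, Complex.sub_im, Complex.conj_re, Complex.conj_im]
    ring
  rw [h2]
  ring

theorem FF_zero (Z : Fin n → ℂ) (t : Fin (n + 1) → Circle) :
    FF Z t 0 = ((∑ j, be Z t j : ℝ) : ℂ) := by
  unfold FF
  rw [Complex.ofReal_sum]
  refine Finset.sum_congr rfl fun j _ => ?_
  rw [add_zero, sub_zero, div_self (Circle.coe_ne_zero _), mul_one]

/-- Existence of finite Blaschke products with prescribed critical points, with a lower bound for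
the pull-back density. -/
theorem heins (Z : Fin n → ℂ) (hZ : ∀ k, ‖Z k‖ < 1) :
    ∃ (f u : ℂ → ℂ) (c : ℝ), 0 < c ∧ DifferentiableOn ℂ f (ball 0 1) ∧
      MapsTo f (ball 0 1) (ball 0 1) ∧ f 0 = 0 ∧ DifferentiableOn ℂ u (ball 0 1) ∧
      (∀ z ∈ ball (0 : ℂ) 1, u z ≠ 0) ∧
      (∀ z ∈ ball (0 : ℂ) 1, deriv f z = u z * PP Z z) ∧
      ∀ z ∈ ball (0 : ℂ) 1, c * ‖PP Z z‖ ≤ pb f z * (1 - ‖z‖ ^ 2) := by
  obtain ⟨t, hinj, ht⟩ := exists_max Z hZ
  have hbe := be_pos Z hZ t hinj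
  set b : ℝ := ∑ j, be Z t j with hb
  have hb0 : 0 < b := Finset.sum_pos (fun j _ => hbe j) Finset.univ_nonempty
  set κ : ℂ := ∏ i, (-(t i : ℂ)) with hκ
  have hκ1 : ‖κ‖ = 1 := by
    rw [hκ, norm_prod]
    exact Finset.prod_eq_one fun i _ => by rw [norm_neg, Circle.norm_coe]
  have hκ0 : κ ≠ 0 := by rw [← norm_ne_zero_iff, hκ1]; norm_num
  set T : ℂ → ℂ := fun z => ∏ i, ((t i : ℂ) - z) ^ 2 with hT
  have hT0 : ∀ z : ℂ, ‖z‖ < 1 → T z ≠ 0 := fun z hz =>
    Finset.prod_ne_zero_iff.2 fun i _ => pow_ne_zero 2 (tz_ne _ hz)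
  -- the derivative of FF
  have hVT : ∀ (z : ℂ) (j : Fin (n + 1)), (VV t j).eval z * ((t j : ℂ) - z) ^ 2 = T z := by
    intro z j
    rw [VV_eval, hT]
    simp only
    rw [← Finset.mul_prod_erase Finset.univ (fun i => ((t i : ℂ) - z) ^ 2) (Finset.mem_univ j),
      mul_comm]
    congr 1
    exact Finset.prod_congr rfl fun i _ => by ring
  have hFd : ∀ z : ℂ, ‖z‖ < 1 → deriv (FF Z t) z = -2 * κ * (WW Z).eval z / T z := by
    intro z hz
    rw [(FF_hasDerivAt Z t hz).deriv, eq_div_iff (hT0 z hz), WW_eq Z hZ t hinj ht, eval_finsetSum,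
      Finset.sum_mul, Finset.mul_sum]
    refine Finset.sum_congr rfl fun j _ => ?_
    rw [eval_mul, eval_C, ← hVT z j]
    have h1 := al_eq Z t hinj j
    have h2 := tz_ne (t j) hz
    field_simp
    linear_combination (VV t j).eval z * h1
  -- positivity of the real part
  have hre : ∀ z : ℂ, ‖z‖ < 1 → 0 < (FF Z t z).re := by
    intro z hz
    rw [FF_re Z t hz]
    refine mul_pos (one_sub_sq_pos hz) (Finset.sum_pos (fun j _ => ?_) Finset.univ_nonempty)
    have := hbe j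
    have := norm_pos_iff.2 (tz_ne (t j) hz)
    positivity
  have hplus : ∀ z : ℂ, ‖z‖ < 1 → FF Z t z + b ≠ 0 := by
    intro z hz h0
    have h1 := congrArg Complex.re h0
    rw [Complex.add_re, Complex.ofReal_re, Complex.zero_re] at h1
    have := hre z hz
    linarith
  set f : ℂ → ℂ := fun z => (FF Z t z - b) / (FF Z t z + b) with hf
  set u : ℂ → ℂ := fun z => 2 * b / (FF Z t z + b) ^ 2 * (-2 * κ *
    (∏ k, (1 - (starRingEnd ℂ) (Z k) * z)) / T z) with hu
  have hFdiff : DifferentiableOn ℂ (FF Z t) (ball 0 1) := fun z hz =>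
    (FF_hasDerivAt Z t (mem_ball_zero_iff.1 hz)).differentiableAt.differentiableWithinAt
  have hfd : DifferentiableOn ℂ f (ball 0 1) :=
    (hFdiff.sub_const _).div (hFdiff.add_const _) fun z hz => hplus z (mem_ball_zero_iff.1 hz)
  have hone : ∀ z : ℂ, ‖z‖ < 1 → 1 - ‖f z‖ ^ 2 = 4 * b * (FF Z t z).re / ‖FF Z t z + b‖ ^ 2 := by
    intro z hz
    have h1 : 0 < ‖FF Z t z + b‖ := norm_pos_iff.2 (hplus z hz)
    simp only [hf]
    rw [norm_div, div_pow, eq_div_iff (by positivity), sub_mul, div_mul_cancel₀ _ (by positivity),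
      one_mul, ← Complex.normSq_eq_norm_sq, ← Complex.normSq_eq_norm_sq]
    simp only [Complex.normSq_apply, Complex.add_re, Complex.sub_re, Complex.add_im, Complex.sub_im,
      Complex.ofReal_re, Complex.ofReal_im]
    ring
  have hfder : ∀ z : ℂ, ‖z‖ < 1 → deriv f z = 2 * b / (FF Z t z + b) ^ 2 * deriv (FF Z t) z := by
    intro z hz
    have h1 := (FF_hasDerivAt Z t hz).differentiableAt.hasDerivAt
    have h2 := ((h1.sub_const (b : ℂ)).div (h1.add_const (b : ℂ)) (hplus z hz)).deriv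
    have h3 : deriv f z = deriv ((fun z => FF Z t z - b) / fun z => FF Z t z + b) z := rfl
    rw [h3, h2]
    ring
  refine ⟨f, u, (∏ k, (1 - ‖Z k‖)) / (4 ^ n * b), ?_, hfd, ?_, ?_, ?_, ?_, ?_, ?_⟩
  · have : 0 < ∏ k, (1 - ‖Z k‖) := Finset.prod_pos fun k _ => by linarith [hZ k]
    positivity
  · intro z hz
    have hz' := mem_ball_zero_iff.1 hz
    rw [mem_ball_zero_iff]
    have h1 := hone z hz'
    have h2 : 0 < 4 * b * (FF Z t z).re / ‖FF Z t z + b‖ ^ 2 := by
      have := hre z hz'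
      have := norm_pos_iff.2 (hplus z hz')
      positivity
    nlinarith [norm_nonneg (f z)]
  · simp only [hf]
    rw [FF_zero, sub_self, zero_div]
  · have hTd : DifferentiableOn ℂ T (ball 0 1) := by
      simp only [hT]; fun_prop
    refine DifferentiableOn.mul (DifferentiableOn.div (differentiableOn_const _)
      ((hFdiff.add_const _).pow 2) fun z hz => pow_ne_zero 2 (hplus z (mem_ball_zero_iff.1 hz)))
      (DifferentiableOn.div (by fun_prop) hTd fun z hz => hT0 z (mem_ball_zero_iff.1 hz))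
  · intro z hz
    have hz' := mem_ball_zero_iff.1 hz
    simp only [hu]
    refine mul_ne_zero (div_ne_zero ?_ (pow_ne_zero 2 (hplus z hz')))
      (div_ne_zero (mul_ne_zero (mul_ne_zero (by norm_num) hκ0) ?_) (hT0 z hz'))
    · exact mul_ne_zero two_ne_zero (Complex.ofReal_ne_zero.2 hb0.ne')
    · exact Finset.prod_ne_zero_iff.2 fun k _ => den_ne (hZ k) hz'
  · intro z hz
    have hz' := mem_ball_zero_iff.1 hz
    rw [hfder z hz', hFd z hz', WW_eval]
    simp only [hu]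
    ring
  · intro z hz
    have hz' := mem_ball_zero_iff.1 hz
    have p1 := one_sub_sq_pos hz'
    have hr := hre z hz'
    have hTz := norm_pos_iff.2 (hT0 z hz')
    have hpl := norm_pos_iff.2 (hplus z hz')
    -- the density
    have h1 : pb f z = ‖(WW Z).eval z‖ / (‖T z‖ * (FF Z t z).re) := by
      unfold pb
      rw [hone z hz', hfder z hz', hFd z hz', norm_mul, norm_div, norm_div, norm_mul, norm_mul,
        norm_pow, norm_mul, hκ1, Complex.norm_real, Real.norm_eq_abs, abs_of_pos hb0]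
      have e1 : ‖(2 : ℂ)‖ = 2 := by simp
      have e2 : ‖(-2 : ℂ)‖ = 2 := by simp
      rw [e1, e2]
      field_simp
      ring
    -- the denominator
    have h2 : ‖T z‖ * (FF Z t z).re ≤ (1 - ‖z‖ ^ 2) * (4 ^ n * b) := by
      rw [FF_re Z t hz']
      have h3 : ‖T z‖ * ∑ j, be Z t j / ‖(t j : ℂ) - z‖ ^ 2 ≤ 4 ^ n * b := by
        rw [hb, Finset.mul_sum, Finset.mul_sum]
        refine Finset.sum_le_sum fun j _ => ?_
        have h4 : ‖T z‖ = ‖(VV t j).eval z‖ * ‖(t j : ℂ) - z‖ ^ 2 := by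
          rw [← hVT z j, norm_mul, norm_pow]
        have h5 : 0 < ‖(t j : ℂ) - z‖ := norm_pos_iff.2 (tz_ne (t j) hz')
        have h6 : ‖(VV t j).eval z‖ ≤ 4 ^ n := by
          rw [VV_eval, norm_prod]
          have h7 : ∀ i ∈ Finset.univ.erase j, ‖(z - (t i : ℂ)) ^ 2‖ ≤ 4 := by
            intro i _
            rw [norm_pow]
            have h8 : ‖z - (t i : ℂ)‖ ≤ 2 := by
              refine (norm_sub_le _ _).trans ?_
              rw [Circle.norm_coe]; linarith
            nlinarith [norm_nonneg (z - (t i : ℂ))]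
          refine (Finset.prod_le_prod (fun i _ => norm_nonneg _) h7).trans_eq ?_
          rw [Finset.prod_const, card_erase_univ]
        rw [h4]
        calc ‖(VV t j).eval z‖ * ‖(t j : ℂ) - z‖ ^ 2 * (be Z t j / ‖(t j : ℂ) - z‖ ^ 2) =
              ‖(VV t j).eval z‖ * be Z t j := by field_simp
          _ ≤ 4 ^ n * be Z t j := mul_le_mul_of_nonneg_right h6 (hbe j).le
      calc ‖T z‖ * ((1 - ‖z‖ ^ 2) * ∑ j, be Z t j / ‖(t j : ℂ) - z‖ ^ 2) =
            (1 - ‖z‖ ^ 2) * (‖T z‖ * ∑ j, be Z t j / ‖(t j : ℂ) - z‖ ^ 2) := by ring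
        _ ≤ _ := mul_le_mul_of_nonneg_left h3 p1.le
    -- the numerator
    have h3 : (∏ k, (1 - ‖Z k‖)) * ‖PP Z z‖ ≤ ‖(WW Z).eval z‖ := by
      rw [WW_eval, norm_mul, mul_comm, norm_prod (s := Finset.univ) (f := fun k => 1 -
        (starRingEnd ℂ) (Z k) * z)]
      refine mul_le_mul_of_nonneg_left ?_ (norm_nonneg _)
      refine Finset.prod_le_prod (fun k _ => by linarith [hZ k]) fun k _ => ?_
      have h4 := norm_sub_norm_le (1 : ℂ) ((starRingEnd ℂ) (Z k) * z)
      rw [norm_one, norm_mul, Complex.norm_conj] at h4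
      nlinarith [norm_nonneg (Z k), norm_nonneg z]
    rw [h1]
    have hden : 0 < ‖T z‖ * (FF Z t z).re := by positivity
    rw [div_mul_eq_mul_div, div_mul_eq_mul_div, div_le_div_iff₀ (by positivity) hden]
    calc (∏ k, (1 - ‖Z k‖)) * ‖PP Z z‖ * (‖T z‖ * (FF Z t z).re)
        ≤ ‖(WW Z).eval z‖ * ((1 - ‖z‖ ^ 2) * (4 ^ n * b)) :=
          mul_le_mul h3 h2 hden.le (norm_nonneg _)
      _ = ‖(WW Z).eval z‖ * (1 - ‖z‖ ^ 2) * (4 ^ n * b) := by ring

end Pool.Agent.MPce8478
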