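import Pool.Agent.MPce8478.Limit

set_option autoImplicit false

open Set Filter Topology Metric

namespace Pool.Agent.MPce8478

theorem iter_pow (N : ℕ) : ∀ F g : ℂ → ℂ, AnalyticAt ℂ g 0 → (F =ᶠ[𝓝 0] fun z => z ^ N * g z) →
    iteratedDeriv N F 0 = N.factorial * g 0 := by
  induction N with
  | zero =>
    intro F g _ h
    rw [iteratedDeriv_zero, h.self_of_nhds]
    simp
  | succ N ih =>
    intro F g hg h
    rw [iteratedDeriv_succ']
    have h1 : deriv F =ᶠ[𝓝 0] fun z => z ^ N * ((N + 1) * g z + z * deriv g z) := by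
      have h2 := h.eventually_nhds
      filter_upwards [h2, hg.eventually_analyticAt] with z hz hgz
      have h3 : F =ᶠ[𝓝 z] fun z => z ^ (N + 1) * g z := hz
      rw [h3.deriv_eq]
      have h4 : HasDerivAt (fun z : ℂ => z ^ (N + 1) * g z)
          (((N + 1 : ℕ) : ℂ) * z ^ N * g z + z ^ (N + 1) * deriv g z) z := by
        refine ((hasDerivAt_pow (N + 1) z).mul hgz.differentiableAt.hasDerivAt).congr_deriv ?_
        simp
      rw [h4.deriv]
      push_cast
      ring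
    have h5 : AnalyticAt ℂ (fun z => (N + 1) * g z + z * deriv g z) 0 := by
      have := hg.deriv
      fun_prop
    rw [ih _ _ h5 h1]
    simp only [zero_mul, add_zero]
    rw [Nat.factorial_succ]
    push_cast
    ring

theorem lead {F : ℂ → ℂ} (hF : AnalyticAt ℂ F 0) {N : ℕ} (hN : (N : ℕ∞) ≤ analyticOrderAt F 0) :
    Tendsto (fun z => ‖F z‖ / ‖z‖ ^ N) (𝓝[≠] 0) (𝓝 (‖iteratedDeriv N F 0‖ / N.factorial)) := by
  obtain ⟨g, hg, hFg⟩ := (natCast_le_analyticOrderAt hF).1 hN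
  have h1 : F =ᶠ[𝓝 0] fun z => z ^ N * g z := by
    filter_upwards [hFg] with z hz
    rw [hz, sub_zero, smul_eq_mul]
  rw [iter_pow N F g hg h1, norm_mul, Complex.norm_natCast,
    mul_div_cancel_left₀ _ (by exact_mod_cast (Nat.factorial_pos N).ne')]
  refine (hg.continuousAt.norm.tendsto.mono_left nhdsWithin_le_nhds).congr' ?_
  filter_upwards [self_mem_nhdsWithin, h1.filter_mono nhdsWithin_le_nhds] with z hz h2
  have hz0 : ‖z‖ ^ N ≠ 0 := pow_ne_zero _ (norm_ne_zero_iff.2 hz)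
  rw [h2, norm_mul, norm_pow, mul_div_cancel_left₀ _ hz0]

theorem pb_lead {f : ℂ → ℂ} (hf : DifferentiableOn ℂ f (ball 0 1)) (hf0 : ‖f 0‖ < 1) {N : ℕ}
    (hN : (N : ℕ∞) ≤ analyticOrderAt (deriv f) 0) :
    Tendsto (fun z => pb f z / ‖z‖ ^ N) (𝓝[≠] 0)
      (𝓝 (‖iteratedDeriv (N + 1) f 0‖ / N.factorial / (1 - ‖f 0‖ ^ 2))) := by
  have h0 : (0 : ℂ) ∈ ball (0 : ℂ) 1 := by simp
  have h1 := lead (anAt isOpen_ball (hf.deriv isOpen_ball) h0) hN
  rw [← iteratedDeriv_succ'] at h1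
  have h2 : Tendsto (fun z => 1 - ‖f z‖ ^ 2) (𝓝[≠] 0) (𝓝 (1 - ‖f 0‖ ^ 2)) := by
    have : ContinuousAt (fun z => 1 - ‖f z‖ ^ 2) 0 :=
      continuousAt_const.sub ((anAt isOpen_ball hf h0).continuousAt.norm.pow 2)
    exact this.tendsto.mono_left nhdsWithin_le_nhds
  refine (h1.div h2 (one_sub_sq_pos hf0).ne').congr fun z => ?_
  show ‖deriv f z‖ / ‖z‖ ^ N / (1 - ‖f z‖ ^ 2) = _
  unfold pb
  rw [div_right_comm]

/-- orders are finite everywhere if finite at one point -/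
theorem order_ne_top {F : ℂ → ℂ} (hF : DifferentiableOn ℂ F (ball 0 1)) {x : ℂ}
    (hx : x ∈ ball (0 : ℂ) 1) (h : analyticOrderAt F x ≠ ⊤) :
    ∀ z ∈ ball (0 : ℂ) 1, analyticOrderAt F z ≠ ⊤ := by
  intro z hz
  have han : AnalyticOnNhd ℂ F (ball 0 1) := fun z hz => anAt isOpen_ball hF hz
  exact han.analyticOrderAt_ne_top_of_isPreconnected (convex_ball (0 : ℂ) 1).isPreconnected hx hz h

/-- a function with values in the closed disc and nonvanishing derivative has values in the open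
disc -/
theorem maps_of_order {f : ℂ → ℂ} (hf : DifferentiableOn ℂ f (ball 0 1))
    (hb : ∀ z ∈ ball (0 : ℂ) 1, ‖f z‖ ≤ 1)
    (h : ∀ z ∈ ball (0 : ℂ) 1, analyticOrderAt (deriv f) z ≠ ⊤) :
    MapsTo f (ball 0 1) (ball 0 1) := by
  intro z hz
  rw [mem_ball_zero_iff]
  refine lt_of_le_of_ne (hb z hz) fun heq => ?_
  have hmax : IsLocalMax (norm ∘ f) z := by
    filter_upwards [isOpen_ball.mem_nhds hz] with w hw
    simp only [Function.comp]
    rw [heq]
    exact hb w hw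
  have h1 : ∀ᶠ w in 𝓝 z, DifferentiableAt ℂ f w := by
    filter_upwards [isOpen_ball.mem_nhds hz] with w hw
    exact hf.differentiableAt (isOpen_ball.mem_nhds hw)
  have h2 := Complex.eventually_eq_of_isLocalMax_norm h1 hmax
  refine h z hz (analyticOrderAt_eq_top.2 ?_)
  filter_upwards [h2.eventually_nhds] with w hw
  have h3 : f =ᶠ[𝓝 w] fun _ => f z := hw
  rw [h3.deriv_eq]
  simp

/-- the derivative of a composition with a map with nonvanishing derivative -/
theorem order_comp {T f : ℂ → ℂ} (hT : IsAut T) (hf : DifferentiableOn ℂ f (ball 0 1))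
    (mf : MapsTo f (ball 0 1) (ball 0 1)) {z : ℂ} (hz : z ∈ ball (0 : ℂ) 1) :
    analyticOrderAt (deriv fun z => T (f z)) z = analyticOrderAt (deriv f) z := by
  have h1 : (deriv fun z => T (f z)) =ᶠ[𝓝 z] (fun z => deriv T (f z)) * deriv f := by
    filter_upwards [isOpen_ball.mem_nhds hz] with w hw
    exact ((diffAt hT.1 (mem_ball_zero_iff.1 (mf hw))).hasDerivAt.comp w
      (hf.differentiableAt (isOpen_ball.mem_nhds hw)).hasDerivAt).deriv
  have h2 : DifferentiableOn ℂ (fun z => deriv T (f z)) (ball 0 1) :=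
    (hT.1.deriv isOpen_ball).comp hf mf
  have h3 : AnalyticAt ℂ (fun z => deriv T (f z)) z := anAt isOpen_ball h2 hz
  rw [analyticOrderAt_congr h1, analyticOrderAt_mul h3
    (anAt isOpen_ball (hf.deriv isOpen_ball) hz), h3.analyticOrderAt_eq_zero.2, zero_add]
  exact aut_deriv_ne hT (mem_ball_zero_iff.1 (mf hz))

theorem isAut_rot {c : ℂ} (hc : ‖c‖ = 1) : IsAut fun z => c * z := by
  have hc0 : c ≠ 0 := by rw [← norm_ne_zero_iff, hc]; norm_num
  refine ⟨by fun_prop, fun z hz => ?_, fun z => c⁻¹ * z, by fun_prop, fun z hz => ?_,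
    fun z _ => ?_, fun z _ => ?_⟩
  · rw [mem_ball_zero_iff] at hz ⊢
    rw [norm_mul, hc, one_mul]; exact hz
  · rw [mem_ball_zero_iff] at hz ⊢
    rw [norm_mul, norm_inv, hc, inv_one, one_mul]; exact hz
  · simp only; rw [inv_mul_cancel_left₀ hc0]
  · simp only; rw [mul_inv_cancel_left₀ hc0]

theorem IsAut.comp {T S : ℂ → ℂ} (hT : IsAut T) (hS : IsAut S) : IsAut fun z => T (S z) := by
  obtain ⟨t1, t2, T', t3, t4, t5, t6⟩ := hT
  obtain ⟨s1, s2, S', s3, s4, s5, s6⟩ := hS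
  refine ⟨t1.comp s1 s2, t2.comp s2, fun z => S' (T' z), s3.comp t3 t4, s4.comp t4,
    fun z hz => ?_, fun z hz => ?_⟩
  · simp only
    rw [t5 _ (s2 hz), s5 z hz]
  · simp only
    rw [s6 _ (t4 hz), t6 z hz]

theorem order_const_mul {c : ℂ} (hc : c ≠ 0) {f : ℂ → ℂ} (hf : DifferentiableOn ℂ f (ball 0 1))
    {z : ℂ} (hz : z ∈ ball (0 : ℂ) 1) :
    analyticOrderAt (deriv fun z => c * f z) z = analyticOrderAt (deriv f) z := by
  have h1 : (deriv fun z => c * f z) =ᶠ[𝓝 z] (fun _ => c) * deriv f := by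
    filter_upwards [isOpen_ball.mem_nhds hz] with w hw
    exact ((hf.differentiableAt (isOpen_ball.mem_nhds hw)).hasDerivAt.const_mul c).deriv
  rw [analyticOrderAt_congr h1, analyticOrderAt_mul analyticAt_const
    (anAt isOpen_ball (hf.deriv isOpen_ball) hz),
    (analyticAt_const (𝕜 := ℂ) (v := c) (x := z)).analyticOrderAt_eq_zero.2 hc, zero_add]

/-- the value of the extremal problem is positive for an exact critical function -/
theorem iter_ne_zero {f : ℂ → ℂ} (hf : DifferentiableOn ℂ f (ball 0 1)) {N : ℕ}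
    (h : analyticOrderAt (deriv f) 0 = N) : iteratedDeriv (N + 1) f 0 ≠ 0 := by
  intro h0
  have h0' : (0 : ℂ) ∈ ball (0 : ℂ) 1 := by simp
  have han := anAt isOpen_ball (hf.deriv isOpen_ball) h0'
  rw [iteratedDeriv_succ'] at h0
  have h1 : ((N + 1 : ℕ) : ℕ∞) ≤ analyticOrderAt (deriv f) 0 := by
    rw [natCast_le_analyticOrderAt_iff_iteratedDeriv_eq_zero han]
    intro i hi
    rcases Nat.lt_succ_iff_lt_or_eq.1 hi with h2 | h2
    · exact (natCast_le_analyticOrderAt_iff_iteratedDeriv_eq_zero han).1 h.ge i h2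
    · rw [h2]; exact h0
  rw [h] at h1
  have := ENat.natCast_le_natCast.1 h1
  omega

theorem order_eq_of_iter_ne {f : ℂ → ℂ} (hf : DifferentiableOn ℂ f (ball 0 1)) {N : ℕ}
    (h : (N : ℕ∞) ≤ analyticOrderAt (deriv f) 0) (hne : iteratedDeriv (N + 1) f 0 ≠ 0) :
    analyticOrderAt (deriv f) 0 = N := by
  have h0' : (0 : ℂ) ∈ ball (0 : ℂ) 1 := by simp
  have han := anAt isOpen_ball (hf.deriv isOpen_ball) h0'
  refine le_antisymm ?_ h
  by_contra hcon
  push Not at hcon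
  have h1 : ((N + 1 : ℕ) : ℕ∞) ≤ analyticOrderAt (deriv f) 0 := by
    push_cast
    exact Order.add_one_le_of_lt hcon
  have h2 := (natCast_le_analyticOrderAt_iff_iteratedDeriv_eq_zero han).1 h1 N (Nat.lt_succ_self N)
  rw [iteratedDeriv_succ'] at hne
  exact hne h2

end Pool.Agent.MPce8478
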