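import Mathlib

set_option autoImplicit false

open Set Filter Topology Metric

namespace Pool.Agent.MPce8478

/-- Taylor coefficient -/
noncomputable def tc (f : ℂ → ℂ) (k : ℕ) : ℂ := ((k.factorial : ℂ))⁻¹ * iteratedDeriv k f 0

theorem tc_le {f : ℂ → ℂ} (hf : DifferentiableOn ℂ f (ball 0 1))
    (hb : ∀ z ∈ ball (0 : ℂ) 1, ‖f z‖ ≤ 1) (k : ℕ) : ‖tc f k‖ ≤ 1 := by
  have hest : ∀ R : ℝ, 0 < R → R < 1 → ‖tc f k‖ * R ^ k ≤ 1 := by
    intro R hR0 hR1
    have hsub : closedBall (0 : ℂ) R ⊆ ball 0 1 := closedBall_subset_ball hR1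
    have hd : DiffContOnCl ℂ f (ball 0 R) :=
      DifferentiableOn.diffContOnCl (hf.mono (closure_ball_subset_closedBall.trans hsub))
    have h1 := Complex.norm_iteratedDeriv_le_of_forall_mem_sphere_norm_le k hR0 hd (C := 1)
      (fun z hz => hb z (hsub (sphere_subset_closedBall hz)))
    unfold tc
    rw [norm_mul, norm_inv, Complex.norm_natCast]
    have hk : (0 : ℝ) < k.factorial := by exact_mod_cast Nat.factorial_pos k
    rw [le_div_iff₀ (by positivity), mul_one] at h1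
    rw [mul_assoc, inv_mul_le_iff₀ hk, mul_one]
    exact h1
  have hlim : Tendsto (fun R : ℝ => ‖tc f k‖ * R ^ k) (𝓝[<] 1) (𝓝 (‖tc f k‖ * 1 ^ k)) := by
    have : Continuous fun R : ℝ => ‖tc f k‖ * R ^ k := by fun_prop
    exact (this.tendsto 1).mono_left nhdsWithin_le_nhds
  rw [one_pow, mul_one] at hlim
  refine le_of_tendsto hlim ?_
  filter_upwards [mem_nhdsWithin_of_mem_nhds (lt_mem_nhds (show (0 : ℝ) < 1 by norm_num)),
    self_mem_nhdsWithin] with R h1 h2
  exact hest R h1 h2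

theorem tc_hasSum {f : ℂ → ℂ} (hf : DifferentiableOn ℂ f (ball 0 1)) {z : ℂ} (hz : ‖z‖ < 1) :
    HasSum (fun k => tc f k * z ^ k) (f z) := by
  have h := Complex.hasSum_taylorSeries_on_ball hf (mem_ball_zero_iff.2 hz)
  have e : (fun k => tc f k * z ^ k) =
      fun k : ℕ => ((k.factorial : ℂ))⁻¹ • (z - 0) ^ k • iteratedDeriv k f 0 := by
    funext k
    rw [sub_zero, smul_eq_mul, smul_eq_mul]
    unfold tc
    ring
  rw [e]
  exact h

/-- **Montel's theorem** for sequences of functions bounded by one in the unit disc. -/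
theorem montel (f : ℕ → ℂ → ℂ) (hf : ∀ n, DifferentiableOn ℂ (f n) (ball 0 1))
    (hb : ∀ n, ∀ z ∈ ball (0 : ℂ) 1, ‖f n z‖ ≤ 1) :
    ∃ (φ : ℕ → ℕ) (g : ℂ → ℂ), StrictMono φ ∧
      TendstoLocallyUniformlyOn (fun n => f (φ n)) g atTop (ball 0 1) := by
  have hK : IsCompact (Set.pi univ fun _ : ℕ => closedBall (0 : ℂ) 1) :=
    isCompact_univ_pi fun _ => isCompact_closedBall _ _
  obtain ⟨α, hα, φ, hφ, hlim⟩ := hK.tendsto_subseq (x := fun n => tc (f n)) (fun n k _ => by
    rw [mem_closedBall_zero_iff]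
    exact tc_le (hf n) (hb n) k)
  have hαk : ∀ k, ‖α k‖ ≤ 1 := fun k => mem_closedBall_zero_iff.1 (hα k (mem_univ k))
  have hlimk : ∀ k, Tendsto (fun n => tc (f (φ n)) k) atTop (𝓝 (α k)) := fun k =>
    (tendsto_pi_nhds.1 hlim) k
  refine ⟨φ, fun z => ∑' k, α k * z ^ k, hφ, ?_⟩
  rw [tendstoLocallyUniformlyOn_iff_forall_isCompact isOpen_ball]
  intro K hKs hKc
  rcases K.eq_empty_or_nonempty with rfl | hne
  · exact tendstoUniformlyOn_empty
  obtain ⟨x, hxK, hx⟩ := hKc.exists_isMaxOn hne continuous_norm.continuousOn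
  set r := ‖x‖ with hr
  have hr1 : r < 1 := mem_ball_zero_iff.1 (hKs hxK)
  have hr0 : 0 ≤ r := norm_nonneg x
  have hgeo : Summable fun k : ℕ => r ^ k := summable_geometric_of_lt_one hr0 hr1
  have hs : Tendsto (fun n => ∑' k, ‖tc (f (φ n)) k - α k‖ * r ^ k) atTop (𝓝 0) := by
    have h1 : Tendsto (fun n => ∑' k, ‖tc (f (φ n)) k - α k‖ * r ^ k) atTop
        (𝓝 (∑' _ : ℕ, (0 : ℝ))) := by
      refine tendsto_tsum_of_dominated_convergence (bound := fun k => 2 * r ^ k)
        (hgeo.mul_left 2) (fun k => ?_) (Eventually.of_forall fun n k => ?_)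
      · have h2 : Tendsto (fun n => ‖tc (f (φ n)) k - α k‖ * r ^ k) atTop (𝓝 (0 * r ^ k)) := by
          refine Tendsto.mul_const _ ?_
          exact tendsto_iff_norm_sub_tendsto_zero.1 (hlimk k)
        rwa [zero_mul] at h2
      · rw [norm_mul, norm_norm, norm_pow, Real.norm_eq_abs, abs_of_nonneg hr0]
        refine mul_le_mul_of_nonneg_right ?_ (by positivity)
        refine (norm_sub_le _ _).trans ?_
        have := tc_le (hf (φ n)) (hb (φ n)) k
        have := hαk k
        linarith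
    simpa using h1
  rw [Metric.tendstoUniformlyOn_iff]
  intro ε hε
  filter_upwards [hs.eventually (gt_mem_nhds hε)] with n hn z hz
  have hzr : ‖z‖ ≤ r := hx hz
  have hz1 : ‖z‖ < 1 := hzr.trans_lt hr1
  have s1 := tc_hasSum (hf (φ n)) hz1
  have s2 : HasSum (fun k => α k * z ^ k) (∑' k, α k * z ^ k) := by
    refine Summable.hasSum (Summable.of_norm_bounded hgeo fun k => ?_)
    rw [norm_mul, norm_pow]
    calc ‖α k‖ * ‖z‖ ^ k ≤ 1 * r ^ k :=
          mul_le_mul (hαk k) (pow_le_pow_left₀ (norm_nonneg _) hzr k) (by positivity) (by norm_num)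
      _ = r ^ k := one_mul _
  have s3 := s1.sub s2
  rw [dist_comm, dist_eq_norm, ← s3.tsum_eq]
  refine lt_of_le_of_lt ?_ hn
  have hterm : ∀ k, ‖tc (f (φ n)) k * z ^ k - α k * z ^ k‖ ≤ ‖tc (f (φ n)) k - α k‖ * r ^ k := by
    intro k
    rw [← sub_mul, norm_mul, norm_pow]
    exact mul_le_mul_of_nonneg_left (pow_le_pow_left₀ (norm_nonneg _) hzr k) (norm_nonneg _)
  have hsum : Summable fun k => ‖tc (f (φ n)) k - α k‖ * r ^ k := by
    refine Summable.of_nonneg_of_le (fun k => by positivity) (fun k => ?_) (hgeo.mul_left 2)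
    refine mul_le_mul_of_nonneg_right ?_ (by positivity)
    refine (norm_sub_le _ _).trans ?_
    have := tc_le (hf (φ n)) (hb (φ n)) k
    have := hαk k
    linarith
  exact tsum_of_norm_bounded hsum.hasSum hterm

end Pool.Agent.MPce8478
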