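import Pool.Agent.MPce8478.Stage
import Pool.Agent.MPce8478.Montel

set_option autoImplicit false

open Set Filter Topology Metric

namespace Pool.Agent.MPce8478

theorem iter_diff {U : Set ℂ} (hU : IsOpen U) {f : ℂ → ℂ} (hf : DifferentiableOn ℂ f U) (i : ℕ) :
    DifferentiableOn ℂ (iteratedDeriv i f) U := by
  induction i with
  | zero => rw [iteratedDeriv_zero]; exact hf
  | succ i ih => rw [iteratedDeriv_succ]; exact ih.deriv hU

theorem tlu_iter {U : Set ℂ} (hU : IsOpen U) {F : ℕ → ℂ → ℂ} {f : ℂ → ℂ}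
    (h : TendstoLocallyUniformlyOn F f atTop U) (hF : ∀ n, DifferentiableOn ℂ (F n) U) (i : ℕ) :
    TendstoLocallyUniformlyOn (fun n => iteratedDeriv i (F n)) (iteratedDeriv i f) atTop U := by
  induction i with
  | zero => simpa [iteratedDeriv_zero] using h
  | succ i ih =>
    have := ih.deriv (Eventually.of_forall fun n => iter_diff hU (hF n) i) hU
    simp only [iteratedDeriv_succ]
    exact this

theorem HH_cont {B C g : ℂ → ℂ}
    (hC : DifferentiableOn ℂ C (ball 0 1)) (mC : MapsTo C (ball 0 1) (ball 0 1))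
    (hB : DifferentiableOn ℂ B (ball 0 1)) (mB : MapsTo B (ball 0 1) (ball 0 1))
    (hg : DifferentiableOn ℂ g (ball 0 1)) (mg : MapsTo g (ball 0 1) (ball 0 1)) :
    ContinuousOn (HH B C g) (ball 0 1) := by
  have hB' : ContinuousOn (deriv B) (ball 0 1) := (hB.deriv isOpen_ball).continuousOn
  have hg' : ContinuousOn (deriv g) (ball 0 1) := (hg.deriv isOpen_ball).continuousOn
  have hBC : ContinuousOn (fun z => B (C z)) (ball 0 1) := (hB.comp hC mC).continuousOn
  unfold HH pb
  refine ContinuousOn.mul (ContinuousOn.div (ContinuousOn.mul (hB'.comp hC.continuousOn mC).norm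
    (continuousOn_const.sub (hC.continuousOn.norm.pow 2)))
    (continuousOn_const.sub (hBC.norm.pow 2)) fun z hz => ?_)
    (ContinuousOn.div hg'.norm (continuousOn_const.sub (hg.continuousOn.norm.pow 2)) fun z hz => ?_)
  · exact (one_sub_sq_pos (mem_ball_zero_iff.1 (mB (mC hz)))).ne'
  · exact (one_sub_sq_pos (mem_ball_zero_iff.1 (mg hz))).ne'

theorem strict_maps {f : ℂ → ℂ} (hf : DifferentiableOn ℂ f (ball 0 1))
    (hb : ∀ z ∈ ball (0 : ℂ) 1, ‖f z‖ ≤ 1) {z₁ : ℂ} (hz₁ : z₁ ∈ ball (0 : ℂ) 1) (h1 : ‖f z₁‖ < 1) :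
    MapsTo f (ball 0 1) (ball 0 1) := by
  intro z hz
  rw [mem_ball_zero_iff]
  refine lt_of_le_of_ne (hb z hz) fun heq => ?_
  have hmax : IsMaxOn (norm ∘ f) (ball 0 1) z := fun w hw => by
    simp only [Function.comp]
    show ‖f w‖ ≤ ‖f z‖
    rw [heq]
    exact hb w hw
  have h2 := Complex.norm_eqOn_of_isPreconnected_of_isMaxOn
    (convex_ball (0 : ℂ) 1).isPreconnected isOpen_ball hf hz hmax hz₁
  simp only [Function.comp, Function.const_apply] at h2
  rw [h2, heq] at h1
  exact lt_irrefl _ h1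

theorem limit_fn {B C g m : ℂ → ℂ}
    (hC : DifferentiableOn ℂ C (ball 0 1)) (mC : MapsTo C (ball 0 1) (ball 0 1))
    (hB : DifferentiableOn ℂ B (ball 0 1)) (mB : MapsTo B (ball 0 1) (ball 0 1))
    (hg : DifferentiableOn ℂ g (ball 0 1)) (mg : MapsTo g (ball 0 1) (ball 0 1))
    (hm : DifferentiableOn ℂ m (ball 0 1))
    (hgm : ∀ z ∈ ball (0 : ℂ) 1, deriv g z = deriv C z * m z)
    (hne : ∀ z ∈ ball (0 : ℂ) 1, analyticOrderAt (deriv (fun z => B (C z))) z ≠ ⊤) :
    ∃ f : ℂ → ℂ, DifferentiableOn ℂ f (ball 0 1) ∧ MapsTo f (ball 0 1) (ball 0 1) ∧ f 0 = 0 ∧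
      (∀ z ∈ ball (0 : ℂ) 1, analyticOrderAt (deriv (fun z => B (C z))) z ≤
        analyticOrderAt (deriv f) z) ∧
      ∀ z ∈ ball (0 : ℂ) 1, HH B C g z ≤ pb f z := by
  set A : ℂ → ℂ := fun z => B (C z) with hAdef
  have hA : DifferentiableOn ℂ A (ball 0 1) := hB.comp hC mC
  have hA' : DifferentiableOn ℂ (deriv A) (ball 0 1) := hA.deriv isOpen_ball
  have h0mem : (0 : ℂ) ∈ ball (0 : ℂ) 1 := by simp
  have hne' : ∃ z ∈ ball (0 : ℂ) 1, deriv A z ≠ 0 := by
    by_contra hcon
    push Not at hcon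
    refine hne 0 h0mem (analyticOrderAt_eq_top.2 ?_)
    filter_upwards [isOpen_ball.mem_nhds h0mem] with z hz
    exact hcon z hz
  set r : ℕ → ℝ := fun n => 1 - 1 / ((n : ℝ) + 2) with hr
  have hr0 : ∀ n, 0 < r n := by
    intro n
    have : (1 : ℝ) / ((n : ℝ) + 2) < 1 := by
      rw [div_lt_one (by positivity)]
      linarith [(Nat.cast_nonneg n : (0 : ℝ) ≤ n)]
    simp only [hr]; linarith
  have hr1 : ∀ n, r n < 1 := by
    intro n
    have : (0 : ℝ) < 1 / ((n : ℝ) + 2) := by positivity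
    simp only [hr]; linarith
  have hrlim : Tendsto r atTop (𝓝 1) := by
    have h1 : Tendsto (fun n : ℕ => 1 / ((n : ℝ) + 2)) atTop (𝓝 0) := by
      refine Tendsto.div_atTop tendsto_const_nhds ?_
      exact tendsto_atTop_add_const_right _ _ tendsto_natCast_atTop_atTop
    have := h1.const_sub 1
    rwa [sub_zero] at this
  choose F w hF mF hF0 hw hFw hFH using fun n => stage hC mC hB mB hg mg hm hgm hne' (hr0 n) (hr1 n)
  obtain ⟨φ, G, hφ, hG⟩ := montel F hF (fun n z hz => (mem_ball_zero_iff.1 (mF n hz)).le)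
  have hGd : DifferentiableOn ℂ G (ball 0 1) :=
    hG.differentiableOn (Eventually.of_forall fun n => hF (φ n)) isOpen_ball
  have hGpt : ∀ z ∈ ball (0 : ℂ) 1, Tendsto (fun n => F (φ n) z) atTop (𝓝 (G z)) := fun z hz =>
    hG.tendsto_at hz
  have hG0 : G 0 = 0 := by
    refine tendsto_nhds_unique (hGpt 0 h0mem) ?_
    refine tendsto_const_nhds.congr fun n => ?_
    rw [hF0]
  have hGb : ∀ z ∈ ball (0 : ℂ) 1, ‖G z‖ ≤ 1 := fun z hz =>
    le_of_tendsto (hGpt z hz).norm (Eventually.of_forall fun n =>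
      (mem_ball_zero_iff.1 (mF (φ n) hz)).le)
  have mG : MapsTo G (ball 0 1) (ball 0 1) :=
    strict_maps hGd hGb h0mem (by rw [hG0, norm_zero]; exact one_pos)
  have hrφ : Tendsto (fun n => r (φ n)) atTop (𝓝 1) := hrlim.comp hφ.tendsto_atTop
  have hderG : TendstoLocallyUniformlyOn (fun n => deriv (F (φ n))) (deriv G) atTop (ball 0 1) :=
    hG.deriv (Eventually.of_forall fun n => hF (φ n)) isOpen_ball
  refine ⟨G, hGd, mG, hG0, ?_, ?_⟩
  · -- orders
    intro z hz
    have hz' := mem_ball_zero_iff.1 hz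
    obtain ⟨k, hk⟩ := ENat.ne_top_iff_exists.1 (hne z hz)
    rw [← hk, natCast_le_analyticOrderAt_iff_iteratedDeriv_eq_zero
      (anAt isOpen_ball (hGd.deriv isOpen_ball) hz)]
    intro i hi
    have hiter := tlu_iter isOpen_ball hderG (fun n => (hF (φ n)).deriv isOpen_ball) i
    set ζ : ℕ → ℂ := fun n => z / r (φ n) with hζ
    have hζlim : Tendsto ζ atTop (𝓝 z) := by
      have h1 : Tendsto (fun n => ((r (φ n) : ℝ) : ℂ)) atTop (𝓝 1) := by
        have := (Complex.continuous_ofReal.tendsto 1).comp hrφ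
        rw [Complex.ofReal_one] at this
        exact this
      have h2 := (tendsto_const_nhds (x := z)).div h1 one_ne_zero
      rw [div_one] at h2
      exact h2
    have hζmem : ∀ᶠ n in atTop, ζ n ∈ ball (0 : ℂ) 1 :=
      hζlim.eventually (isOpen_ball.mem_nhds hz)
    have hζw : Tendsto ζ atTop (𝓝[ball 0 1] z) :=
      tendsto_nhdsWithin_iff.2 ⟨hζlim, hζmem⟩
    have hcont : ContinuousWithinAt (iteratedDeriv i (deriv G)) (ball 0 1) z :=
      (iter_diff isOpen_ball (hGd.deriv isOpen_ball) i).continuousOn z hz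
    have hlim := hiter.tendsto_comp hcont hz hζw
    refine tendsto_nhds_unique hlim ?_
    refine tendsto_const_nhds.congr' ?_
    filter_upwards [hζmem] with n hn
    symm
    -- the order at `ζ n`
    have hrc : ((r (φ n) : ℝ) : ℂ) ≠ 0 := Complex.ofReal_ne_zero.2 (hr0 _).ne'
    have hrz : (r (φ n) : ℂ) * ζ n = z := by simp only [hζ]; field_simp
    have hord : (k : ℕ∞) ≤ analyticOrderAt (deriv (F (φ n))) (ζ n) := by
      have h1 : deriv (F (φ n)) =ᶠ[𝓝 (ζ n)]
          (w (φ n)) * ((deriv A) ∘ fun z : ℂ => (r (φ n) : ℂ) * z) := by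
        filter_upwards [isOpen_ball.mem_nhds hn] with x hx
        rw [hFw (φ n) x hx]
        rfl
      have hlin : AnalyticAt ℂ (fun z : ℂ => (r (φ n) : ℂ) * z) (ζ n) := by fun_prop
      have h2 : analyticOrderAt ((deriv A) ∘ fun z : ℂ => (r (φ n) : ℂ) * z) (ζ n) = k := by
        rw [analyticOrderAt_comp_of_deriv_ne_zero hlin, hrz, hk]
        have : deriv (fun z : ℂ => (r (φ n) : ℂ) * z) (ζ n) = r (φ n) := by
          simpa using ((hasDerivAt_id (ζ n)).const_mul (r (φ n) : ℂ)).deriv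
        rw [this]
        exact hrc
      have h3 : AnalyticAt ℂ ((deriv A) ∘ fun z : ℂ => (r (φ n) : ℂ) * z) (ζ n) := by
        refine AnalyticAt.comp ?_ hlin
        rw [hrz]
        exact anAt isOpen_ball hA' hz
      rw [analyticOrderAt_congr h1, analyticOrderAt_mul (anAt isOpen_ball (hw (φ n)) hn) h3, h2]
      exact le_add_self
    exact (natCast_le_analyticOrderAt_iff_iteratedDeriv_eq_zero
      (anAt isOpen_ball ((hF (φ n)).deriv isOpen_ball) hn)).1 hord i hi
  · -- densities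
    intro z hz
    have h1 : Tendsto (fun n => (r (φ n)) * HH B C g ((r (φ n) : ℂ) * z)) atTop
        (𝓝 (1 * HH B C g z)) := by
      refine hrφ.mul ?_
      have h2 : Tendsto (fun n => ((r (φ n) : ℝ) : ℂ) * z) atTop (𝓝 z) := by
        have h3 : Tendsto (fun n => ((r (φ n) : ℝ) : ℂ)) atTop (𝓝 1) := by
          have := (Complex.continuous_ofReal.tendsto 1).comp hrφ
          rw [Complex.ofReal_one] at this
          exact this
        have h4 := h3.mul_const z
        rw [one_mul] at h4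
        exact h4
      exact (((HH_cont hC mC hB mB hg mg).continuousAt (isOpen_ball.mem_nhds hz)).tendsto).comp h2
    rw [one_mul] at h1
    have h2 : Tendsto (fun n => pb (F (φ n)) z) atTop (𝓝 (pb G z)) := by
      unfold pb
      refine ((hderG.tendsto_at hz).norm).div (((hGpt z hz).norm.pow 2).const_sub 1) ?_
      exact (one_sub_sq_pos (mem_ball_zero_iff.1 (mG hz))).ne'
    exact le_of_tendsto_of_tendsto' h1 h2 fun n => hFH (φ n) z hz

end Pool.Agent.MPce8478
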