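import Pool.Agent.MPce8478.Main

set_option autoImplicit false

open Set Filter Topology Metric

namespace Pool.Agent.MPce8478

theorem hInf_id : HInf fun z => z :=
  ⟨differentiableOn_id, 1, fun _ hz => (mem_ball_zero_iff.1 hz).le⟩

theorem order_id (z : ℂ) : analyticOrderAt (deriv fun z : ℂ => z) z = 0 := by
  have h : (deriv fun z : ℂ => z) = fun _ => 1 := by
    funext z
    exact (hasDerivAt_id z).deriv
  rw [h]
  exact (analyticAt_const (𝕜 := ℂ) (v := (1 : ℂ)) (x := z)).analyticOrderAt_eq_zero.2 one_ne_zero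

theorem deriv_zero_le {f : ℂ → ℂ} (hf : DifferentiableOn ℂ f (ball 0 1))
    (hb : ∀ z ∈ ball (0 : ℂ) 1, ‖f z‖ ≤ 1) : ‖deriv f 0‖ ≤ 1 := by
  have h1 : ∀ R : ℝ, 0 < R → R < 1 → ‖deriv f 0‖ ≤ 1 / R := by
    intro R hR0 hR1
    refine Complex.norm_deriv_le_of_forall_mem_sphere_norm_le hR0 ?_ ?_
    · refine ((hf.mono ?_)).diffContOnCl
      rw [closure_ball _ hR0.ne']
      exact closedBall_subset_ball hR1
    · intro z hz
      refine hb z (mem_ball_zero_iff.2 ?_)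
      rw [mem_sphere_zero_iff_norm] at hz
      rw [hz]; exact hR1
  by_contra hcon
  push Not at hcon
  have h2 := h1 (((1 + ‖deriv f 0‖) / 2)⁻¹) (by positivity)
    (inv_lt_one_of_one_lt₀ (by linarith))
  rw [one_div, inv_inv] at h2
  linarith

theorem isExtremal_id {κ : ℂ → ℕ} (hκ : ∀ z ∈ ball (0 : ℂ) 1, κ z = 0) :
    IsExtremal κ fun z => z := by
  have h0 : (0 : ℂ) ∈ ball (0 : ℂ) 1 := by simp
  refine ⟨⟨hInf_id, fun z hz => ?_⟩, fun z hz => (mem_ball_zero_iff.1 hz).le, fun f hf hf1 => ?_⟩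
  · rw [hκ z hz, order_id]; simp
  · rw [hκ 0 h0, zero_add, iteratedDeriv_one, iteratedDeriv_one]
    have h1 : deriv (fun z : ℂ => z) 0 = 1 := (hasDerivAt_id (0 : ℂ)).deriv
    rw [h1, Complex.one_re]
    exact (Complex.re_le_norm _).trans (deriv_zero_le hf.1.1 hf1)

theorem isMaximalBP_id : IsMaximalBP fun z => z := by
  refine ⟨fun _ => 0, ⟨fun z => z, hInf_id, ?_, fun z _ => ?_⟩, fun z => z, fun z => z,
    isExtremal_id fun _ _ => rfl, ?_, fun _ _ => rfl⟩
  · rintro ⟨c, hc⟩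
    have h1 := hc 0 (by simp)
    have h2 := hc (1 / 2) (by rw [mem_ball_zero_iff]; norm_num)
    rw [← h1] at h2
    norm_num at h2
  · rw [order_id]; simp
  · exact ⟨differentiableOn_id, fun _ h => h, fun z => z, differentiableOn_id, fun _ h => h,
      fun _ _ => rfl, fun _ _ => rfl⟩

theorem not_isMaximalBP_half : ¬ IsMaximalBP fun z => z / 2 := by
  rintro ⟨κ, ⟨f₀, hf₀, -, hf₀o⟩, E, T, hE, hT, hAT⟩
  have h0 : (0 : ℂ) ∈ ball (0 : ℂ) 1 := by simp
  have hpos := extremal_pos hf₀ hf₀o hE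
  have hEd : DifferentiableOn ℂ E (ball 0 1) := hE.1.1.1
  have hEne : iteratedDeriv (κ 0 + 1) E 0 ≠ 0 := by
    intro h; rw [h] at hpos; simp at hpos
  have hEo0 : analyticOrderAt (deriv E) 0 = κ 0 := order_eq_of_iter_ne hEd (hE.1.2 0 h0) hEne
  have hEfin : ∀ z ∈ ball (0 : ℂ) 1, analyticOrderAt (deriv E) z ≠ ⊤ :=
    order_ne_top (hEd.deriv isOpen_ball) h0 (by rw [hEo0]; exact ENat.natCast_ne_top _)
  have mE : MapsTo E (ball 0 1) (ball 0 1) := maps_of_order hEd hE.2.1 hEfin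
  have hder : ∀ z : ℂ, deriv (fun z : ℂ => z / 2) z = 1 / 2 := fun z => by
    have := (hasDerivAt_id z).div_const 2
    exact this.deriv
  have hev : ∀ z ∈ ball (0 : ℂ) 1, (fun z => z / 2) =ᶠ[𝓝 z] fun z => T (E z) := fun z hz => by
    filter_upwards [isOpen_ball.mem_nhds hz] with w hw
    exact hAT w hw
  have hκ : ∀ z ∈ ball (0 : ℂ) 1, κ z = 0 := by
    intro z hz
    have h1 : analyticOrderAt (deriv E) z = 0 := by
      rw [← order_comp hT hEd mE hz, ← analyticOrderAt_congr (hev z hz).deriv]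
      have h : (deriv fun z : ℂ => z / 2) = fun _ => 1 / 2 := funext hder
      rw [h]
      exact (analyticAt_const (𝕜 := ℂ) (v := (1 / 2 : ℂ)) (x := z)).analyticOrderAt_eq_zero.2
        (by norm_num)
    have h2 := hE.1.2 z hz
    rw [h1] at h2
    simpa using h2
  have h1 := hE.2.2 (fun z => z) (isExtremal_id hκ).1 (isExtremal_id hκ).2.1
  rw [hκ 0 h0, zero_add, iteratedDeriv_one, iteratedDeriv_one] at h1
  have h2 : deriv (fun z : ℂ => z) 0 = 1 := (hasDerivAt_id (0 : ℂ)).deriv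
  rw [h2, Complex.one_re] at h1
  have h3 : pb (fun z => z / 2) 0 = pb E 0 := by
    rw [← pb_comp hT hEd mE (by simp)]
    unfold pb
    rw [(hev 0 h0).deriv_eq, hAT 0 h0]
  have h4 : pb (fun z => z / 2) 0 = 1 / 2 := by
    unfold pb
    rw [hder]
    norm_num
  have h5 : ‖deriv E 0‖ = 1 / 2 * (1 - ‖E 0‖ ^ 2) := by
    rw [← h4, h3]
    unfold pb
    rw [div_mul_cancel₀ _ (one_sub_sq_pos (mem_ball_zero_iff.1 (mE h0))).ne']
  have h6 := Complex.re_le_norm (deriv E 0)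
  nlinarith [sq_nonneg ‖E 0‖]

end Pool.Agent.MPce8478
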