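import Pool.Agent.MPce8478.Pick

set_option autoImplicit false

open Set Filter Topology Metric

namespace Pool.Agent.MPce8478

/-- elementary inequality -/
theorem ratio_gt {r X₁ X₂ Y₁ Y₂ δ : ℝ} (hr : 0 < r) (hX1 : 0 ≤ X₁) (hX2 : 0 ≤ X₂) (hY1 : 0 ≤ Y₁)
    (hY2 : 0 ≤ Y₂) (hδ : 0 ≤ δ) (hXr : (X₁ + X₂) * r < 1)
    (hY1r : Y₁ * r < 1) (hY2r : Y₂ * r < 1)
    (hb : 0 < (Y₁ + Y₂ + δ) - (X₁ + X₂) - (X₁ + X₂) * (Y₁ + Y₂ + δ) * r) :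
    1 < (1 - X₁ * r) * (1 - X₂ * r) / ((1 - Y₁ * r) * (1 - Y₂ * r)) * Real.exp (δ * r) := by
  have d1 : 0 < 1 - Y₁ * r := by linarith
  have d2 : 0 < 1 - Y₂ * r := by linarith
  have he : 1 + δ * r ≤ Real.exp (δ * r) := by
    have := Real.add_one_le_exp (δ * r); linarith
  rw [div_mul_eq_mul_div, one_lt_div (by positivity)]
  have hxx : 0 ≤ X₁ * r * (X₂ * r) := by positivity
  have h1 : (1 - (X₁ + X₂) * r) * (1 + δ * r) ≤ (1 - X₁ * r) * (1 - X₂ * r) * Real.exp (δ * r) := by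
    apply mul_le_mul _ he (by positivity)
    · nlinarith
    · nlinarith
  have h2 : (1 - Y₁ * r) * (1 - Y₂ * r) * (1 + (Y₁ + Y₂) * r) ≤ 1 := by
    have e1 : (1 - Y₁ * r) * (1 + Y₁ * r) ≤ 1 := by nlinarith [sq_nonneg (Y₁ * r)]
    have e2 : (1 - Y₂ * r) * (1 + Y₂ * r) ≤ 1 := by nlinarith [sq_nonneg (Y₂ * r)]
    have e3 : 0 ≤ (1 - Y₂ * r) * (1 + Y₂ * r) := by positivity
    have e4 : 0 ≤ (1 - Y₁ * r) * (1 + Y₁ * r) := by positivity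
    have e5 : 1 + (Y₁ + Y₂) * r ≤ (1 + Y₁ * r) * (1 + Y₂ * r) := by
      have : 0 ≤ Y₁ * r * (Y₂ * r) := by positivity
      nlinarith
    calc (1 - Y₁ * r) * (1 - Y₂ * r) * (1 + (Y₁ + Y₂) * r)
        ≤ (1 - Y₁ * r) * (1 - Y₂ * r) * ((1 + Y₁ * r) * (1 + Y₂ * r)) :=
          mul_le_mul_of_nonneg_left e5 (by positivity)
      _ = ((1 - Y₁ * r) * (1 + Y₁ * r)) * ((1 - Y₂ * r) * (1 + Y₂ * r)) := by ring
      _ ≤ 1 * 1 := mul_le_mul e1 e2 e3 (by norm_num)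
      _ = 1 := one_mul 1
  have hXr' : 0 < 1 - (X₁ + X₂) * r := by linarith
  have h3 : 1 < (1 - (X₁ + X₂) * r) * (1 + δ * r) * (1 + (Y₁ + Y₂) * r) := by
    have e1 : 1 + (Y₁ + Y₂ + δ) * r ≤ (1 + δ * r) * (1 + (Y₁ + Y₂) * r) := by
      have : 0 ≤ δ * r * ((Y₁ + Y₂) * r) := by positivity
      nlinarith
    have e2 : 1 < (1 - (X₁ + X₂) * r) * (1 + (Y₁ + Y₂ + δ) * r) := by
      have : 0 < r * ((Y₁ + Y₂ + δ) - (X₁ + X₂) - (X₁ + X₂) * (Y₁ + Y₂ + δ) * r) := mul_pos hr hb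
      nlinarith
    calc 1 < (1 - (X₁ + X₂) * r) * (1 + (Y₁ + Y₂ + δ) * r) := e2
      _ ≤ (1 - (X₁ + X₂) * r) * ((1 + δ * r) * (1 + (Y₁ + Y₂) * r)) :=
          mul_le_mul_of_nonneg_left e1 hXr'.le
      _ = _ := by ring
  have h4 : 0 < 1 + (Y₁ + Y₂) * r := by positivity
  have h5 : (1 - Y₁ * r) * (1 - Y₂ * r) * (1 + (Y₁ + Y₂) * r) <
      (1 - X₁ * r) * (1 - X₂ * r) * Real.exp (δ * r) * (1 + (Y₁ + Y₂) * r) :=
    (h2.trans_lt h3).trans_le (mul_le_mul_of_nonneg_right h1 h4.le)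
  exact lt_of_mul_lt_mul_right h5 h4.le

/-- local normal form of `1 - |f|²` -/
theorem normal_form {f : ℂ → ℂ} {p : ℂ} (hf : ∀ᶠ z in 𝓝 p, DifferentiableAt ℂ f z)
    (hp : ‖f p‖ < 1) :
    ∃ (X : ℂ → ℝ) (m : ℂ → ℂ) (K : ℝ), ContinuousAt X p ∧ X p = pb f p ^ 2 ∧ (∀ z, 0 ≤ X z) ∧
      (∀ᶠ z in 𝓝 p, DifferentiableAt ℂ m z) ∧ m p ≠ 0 ∧ 0 < K ∧
      ∀ᶠ z in 𝓝 p, 1 - ‖f z‖ ^ 2 = (1 - X z * ‖z - p‖ ^ 2) * ‖m z‖ ^ 2 * K := by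
  set a := f p with ha
  set w : ℂ → ℂ := fun z => mb a (f z) with hw
  have hfp : DifferentiableAt ℂ f p := hf.self_of_nhds
  have hwp : HasDerivAt w (((1 - ‖a‖ ^ 2 : ℝ) : ℂ) / (1 - (starRingEnd ℂ) a * a) ^ 2 * deriv f p) p :=
    (hasDerivAt_mb hp hp).comp p hfp.hasDerivAt
  have hw0 : w p = 0 := by simp only [hw]; rw [← ha, mb_self]
  have ha1 := one_sub_sq_pos hp
  have hcont : ∀ᶠ z in 𝓝 p, ‖f z‖ < 1 :=
    hfp.continuousAt.norm.eventually (gt_mem_nhds hp)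
  refine ⟨fun z => ‖dslope w p z‖ ^ 2, fun z => 1 - (starRingEnd ℂ) a * f z, 1 / (1 - ‖a‖ ^ 2),
    ?_, ?_, fun z => by positivity, ?_, ?_, by positivity, ?_⟩
  · exact ((continuousAt_dslope_same.2 hwp.differentiableAt).norm).pow 2
  · simp only [dslope_same]
    rw [hwp.deriv, one_sub_conj_mul_self, norm_mul, norm_div, norm_pow, Complex.norm_real,
      Real.norm_eq_abs, abs_of_pos ha1]
    unfold pb
    rw [← ha]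
    congr 1
    field_simp
  · filter_upwards [hf] with z hz
    exact (differentiableAt_const _).sub (hz.const_mul _)
  · exact den_ne hp hp
  · filter_upwards [hcont] with z hz
    have h1 : w z = (z - p) * dslope w p z := by
      have := sub_smul_dslope w p z
      rw [hw0, sub_zero, smul_eq_mul] at this
      exact this.symm
    have h2 := one_sub_mb hp hz
    have h3 : ‖mb a (f z)‖ ^ 2 = ‖dslope w p z‖ ^ 2 * ‖z - p‖ ^ 2 := by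
      have : mb a (f z) = w z := rfl
      rw [this, h1, norm_mul, mul_pow, mul_comm]
    have h4 : 0 < ‖1 - (starRingEnd ℂ) a * f z‖ := norm_pos_iff.2 (den_ne hp hz)
    rw [← h3, h2]
    field_simp

theorem local_max {p : ℂ} {q f₁ f₂ g₁ g₂ : ℂ → ℂ} {δ : ℝ}
    (hq : ∀ᶠ z in 𝓝 p, DifferentiableAt ℂ q z) (hq0 : q p ≠ 0)
    (hf₁ : ∀ᶠ z in 𝓝 p, DifferentiableAt ℂ f₁ z) (hf₁p : ‖f₁ p‖ < 1)
    (hf₂ : ∀ᶠ z in 𝓝 p, DifferentiableAt ℂ f₂ z) (hf₂p : ‖f₂ p‖ < 1)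
    (hg₁ : ∀ᶠ z in 𝓝 p, DifferentiableAt ℂ g₁ z) (hg₁p : ‖g₁ p‖ < 1)
    (hg₂ : ∀ᶠ z in 𝓝 p, DifferentiableAt ℂ g₂ z) (hg₂p : ‖g₂ p‖ < 1)
    (hδ : 0 ≤ δ)
    (hmax : IsLocalMax (fun z => ‖q z‖ * ((1 - ‖f₁ z‖ ^ 2) * (1 - ‖f₂ z‖ ^ 2) /
      ((1 - ‖g₁ z‖ ^ 2) * (1 - ‖g₂ z‖ ^ 2))) * Real.exp (δ * ‖z‖ ^ 2)) p) :
    pb g₁ p ^ 2 + pb g₂ p ^ 2 + δ ≤ pb f₁ p ^ 2 + pb f₂ p ^ 2 := by
  by_contra hcon
  push Not at hcon
  obtain ⟨X₁, m₁, K₁, cX₁, vX₁, pX₁, dm₁, nm₁, pK₁, e₁⟩ := normal_form hf₁ hf₁p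
  obtain ⟨X₂, m₂, K₂, cX₂, vX₂, pX₂, dm₂, nm₂, pK₂, e₂⟩ := normal_form hf₂ hf₂p
  obtain ⟨Y₁, n₁, L₁, cY₁, vY₁, pY₁, dn₁, nn₁, pL₁, g₁e⟩ := normal_form hg₁ hg₁p
  obtain ⟨Y₂, n₂, L₂, cY₂, vY₂, pY₂, dn₂, nn₂, pL₂, g₂e⟩ := normal_form hg₂ hg₂p
  -- continuity facts
  have cρ : ContinuousAt (fun z : ℂ => ‖z - p‖ ^ 2) p := by fun_prop
  have hρ0 : ‖p - p‖ ^ 2 = 0 := by simp
  set bra : ℂ → ℝ := fun z => (Y₁ z + Y₂ z + δ) - (X₁ z + X₂ z) -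
    (X₁ z + X₂ z) * (Y₁ z + Y₂ z + δ) * ‖z - p‖ ^ 2 with hbra
  have cbra : ContinuousAt bra p := by
    have c1 : ContinuousAt (fun z => Y₁ z + Y₂ z + δ) p := (cY₁.add cY₂).add continuousAt_const
    have c2 : ContinuousAt (fun z => X₁ z + X₂ z) p := cX₁.add cX₂
    exact (c1.sub c2).sub ((c2.mul c1).mul cρ)
  have hbrap : 0 < bra p := by
    simp only [hbra]
    rw [hρ0, mul_zero, sub_zero, vX₁, vX₂, vY₁, vY₂]
    linarith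
  have ev1 : ∀ᶠ z in 𝓝 p, 0 < bra z := cbra.eventually (lt_mem_nhds hbrap)
  have ev2 : ∀ᶠ z in 𝓝 p, (X₁ z + X₂ z) * ‖z - p‖ ^ 2 < 1 := by
    have c : ContinuousAt (fun z => (X₁ z + X₂ z) * ‖z - p‖ ^ 2) p := (cX₁.add cX₂).mul cρ
    refine c.eventually (gt_mem_nhds ?_)
    show (X₁ p + X₂ p) * ‖p - p‖ ^ 2 < 1
    rw [hρ0, mul_zero]; exact one_pos
  have ev3 : ∀ᶠ z in 𝓝 p, Y₁ z * ‖z - p‖ ^ 2 < 1 := by
    refine (cY₁.mul cρ).eventually (gt_mem_nhds ?_)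
    show Y₁ p * ‖p - p‖ ^ 2 < 1
    rw [hρ0, mul_zero]; exact one_pos
  have ev4 : ∀ᶠ z in 𝓝 p, Y₂ z * ‖z - p‖ ^ 2 < 1 := by
    refine (cY₂.mul cρ).eventually (gt_mem_nhds ?_)
    show Y₂ p * ‖p - p‖ ^ 2 < 1
    rw [hρ0, mul_zero]; exact one_pos
  -- the analytic factor
  set Q : ℂ → ℂ := fun z => q z * (m₁ z ^ 2 * m₂ z ^ 2 / (n₁ z ^ 2 * n₂ z ^ 2)) *
    Complex.exp (2 * δ * (starRingEnd ℂ) p * (z - p)) with hQ
  have evn₁ : ∀ᶠ z in 𝓝 p, n₁ z ≠ 0 :=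
    dn₁.self_of_nhds.continuousAt.eventually (isOpen_ne.mem_nhds nn₁)
  have evn₂ : ∀ᶠ z in 𝓝 p, n₂ z ≠ 0 :=
    dn₂.self_of_nhds.continuousAt.eventually (isOpen_ne.mem_nhds nn₂)
  have hQd : ∀ᶠ z in 𝓝 p, DifferentiableAt ℂ Q z := by
    filter_upwards [hq, dm₁, dm₂, dn₁, dn₂, evn₁, evn₂] with z h1 h2 h3 h4 h5 h6 h7
    refine (h1.mul (((h2.pow 2).mul (h3.pow 2)).div ((h4.pow 2).mul (h5.pow 2)) ?_)).mul
      (by fun_prop)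
    exact mul_ne_zero (pow_ne_zero 2 h6) (pow_ne_zero 2 h7)
  have hQp : Q p ≠ 0 := by
    simp only [hQ]
    refine mul_ne_zero (mul_ne_zero hq0 (div_ne_zero ?_ ?_)) (Complex.exp_ne_zero _)
    · exact mul_ne_zero (pow_ne_zero 2 nm₁) (pow_ne_zero 2 nm₂)
    · exact mul_ne_zero (pow_ne_zero 2 nn₁) (pow_ne_zero 2 nn₂)
  have evQ : ∀ᶠ z in 𝓝 p, Q z ≠ 0 :=
    hQd.self_of_nhds.continuousAt.eventually (isOpen_ne.mem_nhds hQp)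
  -- the formula
  set C : ℝ := K₁ * K₂ / (L₁ * L₂) * Real.exp (δ * ‖p‖ ^ 2) with hC
  have hC0 : 0 < C := by positivity
  set R : ℂ → ℝ := fun z => (1 - X₁ z * ‖z - p‖ ^ 2) * (1 - X₂ z * ‖z - p‖ ^ 2) /
    ((1 - Y₁ z * ‖z - p‖ ^ 2) * (1 - Y₂ z * ‖z - p‖ ^ 2)) * Real.exp (δ * ‖z - p‖ ^ 2) with hR
  have hform : ∀ᶠ z in 𝓝 p, ‖q z‖ * ((1 - ‖f₁ z‖ ^ 2) * (1 - ‖f₂ z‖ ^ 2) /
      ((1 - ‖g₁ z‖ ^ 2) * (1 - ‖g₂ z‖ ^ 2))) * Real.exp (δ * ‖z‖ ^ 2) = ‖Q z‖ * R z * C := by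
    filter_upwards [e₁, e₂, g₁e, g₂e, ev3, ev4, evn₁, evn₂] with z h1 h2 h3 h4 h5 h6 h7 h8
    rw [h1, h2, h3, h4]
    have hz2 : ‖z‖ ^ 2 = ‖p‖ ^ 2 + 2 * ((starRingEnd ℂ) p * (z - p)).re + ‖z - p‖ ^ 2 := by
      rw [← Complex.normSq_eq_norm_sq, ← Complex.normSq_eq_norm_sq, ← Complex.normSq_eq_norm_sq]
      simp only [Complex.normSq_apply, Complex.sub_re, Complex.sub_im, Complex.mul_re,
        Complex.conj_re, Complex.conj_im]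
      ring
    have hexp : Real.exp (δ * ‖z‖ ^ 2) = Real.exp (δ * ‖p‖ ^ 2) *
        ‖Complex.exp (2 * δ * (starRingEnd ℂ) p * (z - p))‖ * Real.exp (δ * ‖z - p‖ ^ 2) := by
      rw [Complex.norm_exp, ← Real.exp_add, ← Real.exp_add, hz2]
      congr 1
      have : (2 * (δ : ℂ) * (starRingEnd ℂ) p * (z - p)).re =
          2 * δ * ((starRingEnd ℂ) p * (z - p)).re := by
        have e : 2 * (δ : ℂ) * (starRingEnd ℂ) p * (z - p) =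
          ((2 * δ : ℝ) : ℂ) * ((starRingEnd ℂ) p * (z - p)) := by push_cast; ring
        rw [e, Complex.re_ofReal_mul]
      rw [this]
      ring
    simp only [hQ, hR, hC]
    rw [hexp, norm_mul, norm_mul, norm_div, norm_mul, norm_mul, norm_pow, norm_pow, norm_pow,
      norm_pow]
    have d1 : 1 - Y₁ z * ‖z - p‖ ^ 2 ≠ 0 := by linarith
    have d2 : 1 - Y₂ z * ‖z - p‖ ^ 2 ≠ 0 := by linarith
    have d3 : ‖n₁ z‖ ≠ 0 := norm_ne_zero_iff.2 h7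
    have d4 : ‖n₂ z‖ ≠ 0 := norm_ne_zero_iff.2 h8
    field_simp
  -- strict maximum
  have hRp : R p = 1 := by simp [hR]
  have hform0 := hform.self_of_nhds
  rw [hRp, mul_one] at hform0
  have hstrict : ∀ᶠ z in 𝓝 p, z ≠ p → ‖Q z‖ < ‖Q p‖ := by
    filter_upwards [hmax, hform, ev1, ev2, ev3, ev4, evQ] with z h1 h2 h3 h4 h5 h6 h7 hzp
    have hr : 0 < ‖z - p‖ ^ 2 := by
      have := norm_pos_iff.2 (sub_ne_zero.2 hzp)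
      positivity
    have hRz : 1 < R z := ratio_gt hr (pX₁ z) (pX₂ z) (pY₁ z) (pY₂ z) hδ h4 h5 h6 h3
    rw [h2, hform0] at h1
    have h8 : ‖Q z‖ * R z ≤ ‖Q p‖ := le_of_mul_le_mul_right h1 hC0
    have h9 : 0 < ‖Q z‖ := norm_pos_iff.2 h7
    nlinarith
  have hQmax : IsLocalMax (norm ∘ Q) p := by
    filter_upwards [hstrict] with z hz
    rcases eq_or_ne z p with rfl | h
    · exact le_rfl
    · exact (hz h).le
  have hconst := Complex.eventually_eq_of_isLocalMax_norm hQd hQmax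
  have hne : ∃ᶠ z in 𝓝 p, z ≠ p := by
    have : (𝓝[≠] p).NeBot := inferInstance
    exact frequently_mem_iff_neBot.2 (by rwa [nhdsWithin] at this)
  obtain ⟨z, hzp, h1, h2⟩ := (hne.and_eventually (hconst.and hstrict)).exists
  have := h2 hzp
  rw [h1] at this
  exact lt_irrefl _ this

end Pool.Agent.MPce8478
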