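import Pool.Agent.MPce8478.Lead

set_option autoImplicit false

open Set Filter Topology Metric

namespace Pool.Agent.MPce8478

/-- unimodular rotation of a nonzero complex number onto its norm -/
theorem rot {v : ℂ} (hv : v ≠ 0) : ∃ c : ℂ, ‖c‖ = 1 ∧ c * v = (‖v‖ : ℂ) := by
  have h1 : (‖v‖ : ℂ) ≠ 0 := by exact_mod_cast norm_ne_zero_iff.2 hv
  refine ⟨(‖v‖ : ℂ) / v, ?_, by field_simp⟩
  rw [norm_div, Complex.norm_real, norm_norm, div_self (norm_ne_zero_iff.2 hv)]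

theorem iter_const_mul (c : ℂ) (f : ℂ → ℂ) (k : ℕ) :
    iteratedDeriv k (fun z => c * f z) 0 = c * iteratedDeriv k f 0 := by
  have := iteratedDeriv_const_mul_field (n := k) (x := (0 : ℂ)) c f
  exact this

theorem FC.const_mul {κ : ℂ → ℕ} {f : ℂ → ℂ} (hf : FC κ f) {c : ℂ} (hc : c ≠ 0) :
    FC κ fun z => c * f z := by
  obtain ⟨⟨hd, M, hM⟩, ho⟩ := hf
  refine ⟨⟨hd.const_mul c, ‖c‖ * M, fun z hz => ?_⟩, fun z hz => ?_⟩
  · rw [norm_mul]
    exact mul_le_mul_of_nonneg_left (hM z hz) (norm_nonneg _)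
  · rw [order_const_mul hc hd hz]
    exact ho z hz

theorem extremal_norm {κ : ℂ → ℕ} {E : ℂ → ℂ} (hE : IsExtremal κ E) {f : ℂ → ℂ} (hf : FC κ f)
    (hf1 : ∀ z ∈ ball (0 : ℂ) 1, ‖f z‖ ≤ 1) :
    ‖iteratedDeriv (κ 0 + 1) f 0‖ ≤ (iteratedDeriv (κ 0 + 1) E 0).re := by
  by_cases h0 : iteratedDeriv (κ 0 + 1) f 0 = 0
  · rw [h0, norm_zero]
    have := hE.2.2 f hf hf1
    rw [h0] at this
    simpa using this
  · obtain ⟨c, hc, hcv⟩ := rot h0
    have hc0 : c ≠ 0 := by rw [← norm_ne_zero_iff, hc]; norm_num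
    have h1 := hE.2.2 (fun z => c * f z) (hf.const_mul hc0) (fun z hz => by
      rw [norm_mul, hc, one_mul]; exact hf1 z hz)
    rw [iter_const_mul, hcv, Complex.ofReal_re] at h1
    exact h1

theorem extremal_pos {κ : ℂ → ℕ} {f₀ : ℂ → ℂ} (hf₀ : HInf f₀)
    (hord : ∀ z ∈ ball (0 : ℂ) 1, analyticOrderAt (deriv f₀) z = κ z) {E : ℂ → ℂ}
    (hE : IsExtremal κ E) : 0 < (iteratedDeriv (κ 0 + 1) E 0).re := by
  have h0 : (0 : ℂ) ∈ ball (0 : ℂ) 1 := by simp
  have hne := iter_ne_zero hf₀.1 (hord 0 h0)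
  have hFC : FC κ f₀ := ⟨hf₀, fun z hz => (hord z hz).ge⟩
  obtain ⟨hd, M, hM⟩ := hf₀
  set M' : ℝ := max M 1 with hM'
  have hM'0 : 0 < M' := lt_of_lt_of_le one_pos (le_max_right _ _)
  have hc0 : ((M'⁻¹ : ℝ) : ℂ) ≠ 0 := by
    rw [Complex.ofReal_ne_zero]; positivity
  have h1 := extremal_norm hE (hFC.const_mul hc0) (fun z hz => by
    rw [norm_mul, Complex.norm_real, Real.norm_of_nonneg (by positivity), ← div_eq_inv_mul,
      div_le_one hM'0]
    exact (hM z hz).trans (le_max_left _ _))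
  rw [iter_const_mul, norm_mul] at h1
  exact lt_of_lt_of_le (mul_pos (norm_pos_iff.2 hc0) (norm_pos_iff.2 hne)) h1

theorem order_top_of_const {f : ℂ → ℂ} {z : ℂ} (h : ∀ᶠ w in 𝓝 z, deriv f w = 0) :
    analyticOrderAt (deriv f) z = ⊤ := analyticOrderAt_eq_top.2 h

theorem main {A B C : ℂ → ℂ} (hB : DifferentiableOn ℂ B (ball 0 1))
    (hB1 : ∀ z ∈ ball (0 : ℂ) 1, ‖B z‖ ≤ 1) (hC : DifferentiableOn ℂ C (ball 0 1))
    (mC : MapsTo C (ball 0 1) (ball 0 1)) (hA : ∀ z ∈ ball (0 : ℂ) 1, A z = B (C z))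
    (hmax : IsMaximalBP A) : IsMaximalBP C := by
  have h0 : (0 : ℂ) ∈ ball (0 : ℂ) 1 := by simp
  obtain ⟨κ, ⟨f₀, hf₀, -, hf₀o⟩, E, T, hE, hT, hAT⟩ := hmax
  have hpos := extremal_pos hf₀ hf₀o hE
  have hEd : DifferentiableOn ℂ E (ball 0 1) := hE.1.1.1
  set N := κ 0 with hN
  have hEne : iteratedDeriv (N + 1) E 0 ≠ 0 := by
    intro h; rw [h] at hpos; simp at hpos
  have hEo0 : analyticOrderAt (deriv E) 0 = N := order_eq_of_iter_ne hEd (hE.1.2 0 h0) hEne
  have hEfin : ∀ z ∈ ball (0 : ℂ) 1, analyticOrderAt (deriv E) z ≠ ⊤ :=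
    order_ne_top (hEd.deriv isOpen_ball) h0 (by rw [hEo0]; exact ENat.natCast_ne_top N)
  have mE : MapsTo E (ball 0 1) (ball 0 1) := maps_of_order hEd hE.2.1 hEfin
  -- the composition
  set A₀ : ℂ → ℂ := fun z => B (C z) with hA₀
  have hAE : ∀ z ∈ ball (0 : ℂ) 1, A₀ z = T (E z) := fun z hz => by
    rw [← hAT z hz, hA z hz]
  have hAEev : ∀ z ∈ ball (0 : ℂ) 1, A₀ =ᶠ[𝓝 z] fun z => T (E z) := fun z hz => by
    filter_upwards [isOpen_ball.mem_nhds hz] with w hw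
    exact hAE w hw
  have hAo : ∀ z ∈ ball (0 : ℂ) 1, analyticOrderAt (deriv A₀) z = analyticOrderAt (deriv E) z := by
    intro z hz
    rw [analyticOrderAt_congr (hAEev z hz).deriv, order_comp hT hEd mE hz]
  have hAfin : ∀ z ∈ ball (0 : ℂ) 1, analyticOrderAt (deriv A₀) z ≠ ⊤ := fun z hz => by
    rw [hAo z hz]; exact hEfin z hz
  have hApb : ∀ z ∈ ball (0 : ℂ) 1, pb A₀ z = pb E z := by
    intro z hz
    rw [← pb_comp hT hEd mE (mem_ball_zero_iff.1 hz)]
    unfold pb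
    rw [(hAEev z hz).deriv_eq, hAE z hz]
  have hAder : ∀ z ∈ ball (0 : ℂ) 1, deriv A₀ z = deriv B (C z) * deriv C z := fun z hz =>
    ((diffAt hB (mem_ball_zero_iff.1 (mC hz))).hasDerivAt.comp z
      (diffAt hC (mem_ball_zero_iff.1 hz)).hasDerivAt).deriv
  -- finite orders for `B` and `C`
  have hCfin : ∀ z ∈ ball (0 : ℂ) 1, analyticOrderAt (deriv C) z ≠ ⊤ := by
    intro z hz htop
    refine hAfin z hz (order_top_of_const ?_)
    filter_upwards [analyticOrderAt_eq_top.1 htop, isOpen_ball.mem_nhds hz] with w hw hwb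
    rw [hAder w hwb, hw, mul_zero]
  have hBfin : ∀ z ∈ ball (0 : ℂ) 1, analyticOrderAt (deriv B) z ≠ ⊤ := by
    refine order_ne_top (hB.deriv isOpen_ball) (mC h0) fun htop => ?_
    refine hAfin 0 h0 (order_top_of_const ?_)
    have hCc : ContinuousAt C 0 := (diffAt hC (by simp)).continuousAt
    filter_upwards [hCc.eventually (analyticOrderAt_eq_top.1 htop), isOpen_ball.mem_nhds h0]
      with w hw hwb
    rw [hAder w hwb, hw, zero_mul]
  have mB : MapsTo B (ball 0 1) (ball 0 1) := maps_of_order hB hB1 hBfin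
  -- the critical set of `C`
  set κC : ℂ → ℕ := fun z => (analyticOrderAt (deriv C) z).toNat with hκC
  have hCo : ∀ z ∈ ball (0 : ℂ) 1, analyticOrderAt (deriv C) z = κC z := fun z hz =>
    (ENat.natCast_toNat (hCfin z hz)).symm
  set m := κC 0 with hm
  have hC1 : ∀ z ∈ ball (0 : ℂ) 1, ‖C z‖ ≤ 1 := fun z hz => (mem_ball_zero_iff.1 (mC hz)).le
  have ha : ‖C 0‖ < 1 := mem_ball_zero_iff.1 (mC h0)
  set D : ℂ → ℂ := fun z => mb (C 0) (C z) with hD
  have hDd : DifferentiableOn ℂ D (ball 0 1) := (differentiableOn_mb ha).comp hC mC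
  have mD : MapsTo D (ball 0 1) (ball 0 1) := (isAut_mb ha).2.1.comp mC
  have hD0 : D 0 = 0 := mb_self _
  have hDo : ∀ z ∈ ball (0 : ℂ) 1, analyticOrderAt (deriv D) z = κC z := fun z hz => by
    rw [← hCo z hz]
    exact order_comp (isAut_mb ha) hC mC hz
  have hv : iteratedDeriv (m + 1) D 0 ≠ 0 := iter_ne_zero hDd (hDo 0 h0)
  obtain ⟨c, hc, hcv⟩ := rot hv
  have hc0 : c ≠ 0 := by rw [← norm_ne_zero_iff, hc]; norm_num
  have hFCD : FC κC D := ⟨⟨hDd, 1, fun z hz => (mem_ball_zero_iff.1 (mD hz)).le⟩,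
    fun z hz => (hDo z hz).ge⟩
  refine ⟨κC, ⟨C, ⟨hC, 1, hC1⟩, ?_, hCo⟩, fun z => c * D z, fun w => mb (-C 0) (c⁻¹ * w),
    ⟨hFCD.const_mul hc0, fun z hz => ?_, fun g hg hg1 => ?_⟩, ?_, fun z hz => ?_⟩
  · rintro ⟨c', hc'⟩
    refine hCfin 0 h0 (order_top_of_const ?_)
    have : C =ᶠ[𝓝 0] fun _ => c' := by
      filter_upwards [isOpen_ball.mem_nhds h0] with z hz
      exact hc' z hz
    filter_upwards [this.deriv] with z hz
    rw [hz]; simp
  · rw [norm_mul, hc, one_mul]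
    exact (mem_ball_zero_iff.1 (mD hz)).le
  · rw [iter_const_mul, hcv, Complex.ofReal_re]
    by_contra hcon
    push Not at hcon
    have hgd : DifferentiableOn ℂ g (ball 0 1) := hg.1.1
    have hG : ‖iteratedDeriv (m + 1) D 0‖ < ‖iteratedDeriv (m + 1) g 0‖ :=
      lt_of_lt_of_le hcon (Complex.re_le_norm _)
    have hGne : iteratedDeriv (m + 1) g 0 ≠ 0 := by
      rw [← norm_pos_iff]; exact (norm_nonneg _).trans_lt hG
    have hgo0 : analyticOrderAt (deriv g) 0 = m := order_eq_of_iter_ne hgd (hg.2 0 h0) hGne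
    have hgfin : ∀ z ∈ ball (0 : ℂ) 1, analyticOrderAt (deriv g) z ≠ ⊤ :=
      order_ne_top (hgd.deriv isOpen_ball) h0 (by rw [hgo0]; exact ENat.natCast_ne_top m)
    have mg : MapsTo g (ball 0 1) (ball 0 1) := maps_of_order hgd hg1 hgfin
    obtain ⟨q, hq, hgq⟩ := quotient isOpen_ball (hgd.deriv isOpen_ball) (hC.deriv isOpen_ball)
      hCfin (fun z hz => by rw [hCo z hz]; exact hg.2 z hz)
    obtain ⟨f, hf, mf, hf0, hfo, hfH⟩ := limit_fn hC mC hB mB hgd mg hq hgq hAfin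
    -- `f` is a competitor for `E`
    have hfFC : FC κ f := ⟨⟨hf, 1, fun z hz => (mem_ball_zero_iff.1 (mf hz)).le⟩, fun z hz =>
      (hE.1.2 z hz).trans ((hAo z hz).ge.trans (hfo z hz))⟩
    have hfE : ‖iteratedDeriv (N + 1) f 0‖ ≤ ‖iteratedDeriv (N + 1) E 0‖ :=
      (extremal_norm hE hfFC fun z hz => (mem_ball_zero_iff.1 (mf hz)).le).trans
        (Complex.re_le_norm _)
    have hkey : ∀ z ∈ ball (0 : ℂ) 1, pb E z * pb g z ≤ pb f z * pb D z := by
      intro z hz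
      have hz' := mem_ball_zero_iff.1 hz
      have h1 : pb D z = pb C z := pb_comp (isAut_mb ha) hC mC hz'
      have h2 : HH B C g z * pb C z = pb E z * pb g z := by
        rw [← hApb z hz]
        have h3 := one_sub_sq_pos (mem_ball_zero_iff.1 (mC hz))
        unfold HH pb
        rw [hAder z hz, norm_mul]
        simp only [hA₀]
        field_simp
      rw [← h2, h1]
      exact mul_le_mul_of_nonneg_right (hfH z hz) (by
        have h3 := one_sub_sq_pos (mem_ball_zero_iff.1 (mC hz))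
        unfold pb; positivity)
    have hfN : (N : ℕ∞) ≤ analyticOrderAt (deriv f) 0 := hfFC.2 0 h0
    have hf0' : ‖f 0‖ < 1 := by rw [hf0, norm_zero]; exact one_pos
    have hD0' : ‖D 0‖ < 1 := by rw [hD0, norm_zero]; exact one_pos
    have hE0' : ‖E 0‖ < 1 := mem_ball_zero_iff.1 (mE h0)
    have hg0' : ‖g 0‖ < 1 := mem_ball_zero_iff.1 (mg h0)
    have l1 := (pb_lead hEd hE0' hEo0.ge).mul (pb_lead hgd hg0' hgo0.ge)
    have l2 := (pb_lead hf hf0' hfN).mul (pb_lead hDd hD0' (hDo 0 h0).ge)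
    have hle := le_of_tendsto_of_tendsto l1 l2 (by
      filter_upwards [nhdsWithin_le_nhds (isOpen_ball.mem_nhds h0)] with z hz
      have h1 := hkey z hz
      have e1 : pb E z / ‖z‖ ^ N * (pb g z / ‖z‖ ^ m) = (pb E z * pb g z) / (‖z‖ ^ N * ‖z‖ ^ m) := by
        rw [div_mul_div_comm]
      have e2 : pb f z / ‖z‖ ^ N * (pb D z / ‖z‖ ^ m) = (pb f z * pb D z) / (‖z‖ ^ N * ‖z‖ ^ m) := by
        rw [div_mul_div_comm]
      rw [e1, e2]
      exact div_le_div_of_nonneg_right h1 (by positivity))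
    rw [hf0, hD0, norm_zero] at hle
    have hNf : (0 : ℝ) < N.factorial := by exact_mod_cast N.factorial_pos
    have hmf : (0 : ℝ) < m.factorial := by exact_mod_cast m.factorial_pos
    have hEpos : 0 < ‖iteratedDeriv (N + 1) E 0‖ := norm_pos_iff.2 hEne
    have b1 : ‖iteratedDeriv (N + 1) E 0‖ / N.factorial ≤
        ‖iteratedDeriv (N + 1) E 0‖ / N.factorial / (1 - ‖E 0‖ ^ 2) :=
      le_div_self (by positivity) (one_sub_sq_pos hE0') (by nlinarith [norm_nonneg (E 0)])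
    have b2 : ‖iteratedDeriv (m + 1) g 0‖ / m.factorial ≤
        ‖iteratedDeriv (m + 1) g 0‖ / m.factorial / (1 - ‖g 0‖ ^ 2) :=
      le_div_self (by positivity) (one_sub_sq_pos hg0') (by nlinarith [norm_nonneg (g 0)])
    have b3 := (mul_le_mul b1 b2 (by positivity) (le_trans (by positivity) b1)).trans hle
    norm_num at b3
    rw [div_mul_div_comm, div_mul_div_comm, div_le_div_iff_of_pos_right (by positivity)] at b3
    have b4 : ‖iteratedDeriv (N + 1) f 0‖ * ‖iteratedDeriv (m + 1) D 0‖ ≤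
        ‖iteratedDeriv (N + 1) E 0‖ * ‖iteratedDeriv (m + 1) D 0‖ :=
      mul_le_mul_of_nonneg_right hfE (norm_nonneg _)
    have b5 := (mul_lt_mul_iff_right₀ hEpos).2 hG
    linarith
  · exact (isAut_mb (by rwa [norm_neg])).comp (isAut_rot (by rw [norm_inv, hc, inv_one]))
  · simp only
    rw [inv_mul_cancel_left₀ hc0]
    exact (mb_inv ha (mem_ball_zero_iff.1 (mC hz))).symm

end Pool.Agent.MPce8478
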