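import Pool.Agent.MPce8478.Compare
import Pool.Agent.MPce8478.Heins2
import Pool.Agent.MPce8478.Factor

set_option autoImplicit false

open Set Filter Topology Metric

namespace Pool.Agent.MPce8478

/-- the competing density -/
noncomputable def HH (B C g : ℂ → ℂ) (z : ℂ) : ℝ :=
  ‖deriv B (C z)‖ * (1 - ‖C z‖ ^ 2) / (1 - ‖B (C z)‖ ^ 2) * pb g z

theorem HH_le {B C g : ℂ → ℂ} (hB : DifferentiableOn ℂ B (ball 0 1))
    (mB : MapsTo B (ball 0 1) (ball 0 1)) (mC : MapsTo C (ball 0 1) (ball 0 1))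
    (hg : DifferentiableOn ℂ g (ball 0 1)) (mg : MapsTo g (ball 0 1) (ball 0 1)) {z : ℂ}
    (hz : ‖z‖ < 1) : HH B C g z * (1 - ‖z‖ ^ 2) ≤ 1 := by
  have hCz : ‖C z‖ < 1 := mem_ball_zero_iff.1 (mC (mem_ball_zero_iff.2 hz))
  have h1 := schwarz_pick hB mB hCz
  have h2 := schwarz_pick hg mg hz
  have pz := one_sub_sq_pos hz
  have pC := one_sub_sq_pos hCz
  have pB := one_sub_sq_pos (mem_ball_zero_iff.1 (mB (mem_ball_zero_iff.2 hCz)))
  have pg := one_sub_sq_pos (mem_ball_zero_iff.1 (mg (mem_ball_zero_iff.2 hz)))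
  have e : HH B C g z * (1 - ‖z‖ ^ 2) = (pb B (C z) * (1 - ‖C z‖ ^ 2)) * (pb g z * (1 - ‖z‖ ^ 2)) := by
    unfold HH
    have : pb B (C z) = ‖deriv B (C z)‖ / (1 - ‖B (C z)‖ ^ 2) := rfl
    rw [this]
    ring
  rw [e]
  have n1 : 0 ≤ pb B (C z) * (1 - ‖C z‖ ^ 2) := by unfold pb; positivity
  have n2 : 0 ≤ pb g z * (1 - ‖z‖ ^ 2) := by unfold pb; positivity
  calc _ ≤ (1 : ℝ) * 1 := mul_le_mul h1 h2 n2 (by norm_num)
    _ = 1 := one_mul 1

theorem stage {B C g m : ℂ → ℂ}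
    (hC : DifferentiableOn ℂ C (ball 0 1)) (mC : MapsTo C (ball 0 1) (ball 0 1))
    (hB : DifferentiableOn ℂ B (ball 0 1)) (mB : MapsTo B (ball 0 1) (ball 0 1))
    (hg : DifferentiableOn ℂ g (ball 0 1)) (mg : MapsTo g (ball 0 1) (ball 0 1))
    (hm : DifferentiableOn ℂ m (ball 0 1))
    (hgm : ∀ z ∈ ball (0 : ℂ) 1, deriv g z = deriv C z * m z)
    (hne : ∃ z ∈ ball (0 : ℂ) 1, deriv (fun z => B (C z)) z ≠ 0)
    {r : ℝ} (hr0 : 0 < r) (hr1 : r < 1) :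
    ∃ f w : ℂ → ℂ, DifferentiableOn ℂ f (ball 0 1) ∧ MapsTo f (ball 0 1) (ball 0 1) ∧ f 0 = 0 ∧
      DifferentiableOn ℂ w (ball 0 1) ∧
      (∀ z ∈ ball (0 : ℂ) 1, deriv f z = w z * deriv (fun z => B (C z)) (r * z)) ∧
      ∀ z ∈ ball (0 : ℂ) 1, r * HH B C g (r * z) ≤ pb f z := by
  -- scaling
  set A : ℂ → ℂ := fun z => B (C z) with hAdef
  have hA : DifferentiableOn ℂ A (ball 0 1) := hB.comp hC mC
  have mA : MapsTo A (ball 0 1) (ball 0 1) := fun z hz => mB (mC hz)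
  have hrn : ‖(r : ℂ)‖ = r := by rw [Complex.norm_real, Real.norm_eq_abs, abs_of_pos hr0]
  have hscale : ∀ z : ℂ, ‖z‖ < 1 / r → ‖(r : ℂ) * z‖ < 1 := by
    intro z hz
    rw [norm_mul, hrn]
    rw [lt_div_iff₀ hr0] at hz
    linarith
  have hR : 1 < 1 / r := by rw [one_lt_div hr0]; exact hr1
  have hscale1 : ∀ z : ℂ, ‖z‖ < 1 → ‖(r : ℂ) * z‖ < 1 := fun z hz => hscale z (hz.trans hR)
  have hscaler : ∀ z : ℂ, ‖z‖ < 1 → ‖(r : ℂ) * z‖ ≤ r := by
    intro z hz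
    rw [norm_mul, hrn]
    nlinarith
  have hmaps1 : MapsTo (fun z : ℂ => (r : ℂ) * z) (ball 0 1) (ball 0 1) := fun z hz =>
    mem_ball_zero_iff.2 (hscale1 z (mem_ball_zero_iff.1 hz))
  have hmapsR : MapsTo (fun z : ℂ => (r : ℂ) * z) (ball 0 (1 / r)) (ball 0 1) := fun z hz =>
    mem_ball_zero_iff.2 (hscale z (mem_ball_zero_iff.1 hz))
  have hlin : ∀ z : ℂ, HasDerivAt (fun z : ℂ => (r : ℂ) * z) r z := fun z => by
    simpa using (hasDerivAt_id z).const_mul (r : ℂ)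
  have hder : ∀ {F : ℂ → ℂ}, DifferentiableOn ℂ F (ball 0 1) → ∀ z : ℂ, ‖z‖ < 1 →
      HasDerivAt (fun z => F (r * z)) (deriv F (r * z) * r) z := by
    intro F hF z hz
    exact (diffAt hF (hscale1 z hz)).hasDerivAt.comp z (hlin z)
  set Cr : ℂ → ℂ := fun z => C (r * z) with hCr
  set gr : ℂ → ℂ := fun z => g (r * z) with hgr
  set Ar : ℂ → ℂ := fun z => A (r * z) with hAr
  have hCrd : DifferentiableOn ℂ Cr (ball 0 1) := hC.comp (by fun_prop) hmaps1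
  have hgrd : DifferentiableOn ℂ gr (ball 0 1) := hg.comp (by fun_prop) hmaps1
  have hmrd : DifferentiableOn ℂ (fun z => m (r * z)) (ball 0 1) := hm.comp (by fun_prop) hmaps1
  have mCr : MapsTo Cr (ball 0 1) (ball 0 1) := fun z hz => mC (hmaps1 hz)
  have mgr : MapsTo gr (ball 0 1) (ball 0 1) := fun z hz => mg (hmaps1 hz)
  -- the derivative of the scaled composition
  set φ : ℂ → ℂ := fun z => r * deriv A (r * z) with hφ
  have hφd : DifferentiableOn ℂ φ (ball 0 (1 / r)) := by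
    have h1 : DifferentiableOn ℂ (deriv A) (ball 0 1) := hA.deriv isOpen_ball
    exact (h1.comp (by fun_prop) hmapsR).const_mul _
  have hφne : ∃ z ∈ ball (0 : ℂ) (1 / r), φ z ≠ 0 := by
    obtain ⟨z, hz, h⟩ := hne
    have hrc : (r : ℂ) ≠ 0 := Complex.ofReal_ne_zero.2 hr0.ne'
    refine ⟨z / r, ?_, ?_⟩
    · rw [mem_ball_zero_iff] at hz ⊢
      rw [norm_div, hrn]
      exact div_lt_div_of_pos_right hz hr0
    · simp only [hφ]
      rw [mul_div_cancel₀ _ hrc]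
      exact mul_ne_zero hrc h
  obtain ⟨n, Z, a, hZ, had, ha0, hfac⟩ := factor hR hφd hφne
  obtain ⟨f, u, c, hc, hf, mf, hf0, hu, hu0, hfu, hlow⟩ := heins Z hZ
  have had1 : DifferentiableOn ℂ a (ball 0 1) := had.mono (ball_subset_ball hR.le)
  set q₁ : ℂ → ℂ := fun z => a z / u z with hq₁
  set q₂ : ℂ → ℂ := fun z => q₁ z * m (r * z) with hq₂
  have hq₁d : DifferentiableOn ℂ q₁ (ball 0 1) := had1.div hu hu0
  have hq₂d : DifferentiableOn ℂ q₂ (ball 0 1) := hq₁d.mul hmrd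
  have hderC : ∀ z ∈ ball (0 : ℂ) 1, deriv Cr z = deriv C (r * z) * r := fun z hz =>
    (hder hC z (mem_ball_zero_iff.1 hz)).deriv
  have hderg : ∀ z ∈ ball (0 : ℂ) 1, deriv gr z = deriv g (r * z) * r := fun z hz =>
    (hder hg z (mem_ball_zero_iff.1 hz)).deriv
  have hderA : ∀ z ∈ ball (0 : ℂ) 1, deriv A (r * z) = deriv B (C (r * z)) * deriv C (r * z) := by
    intro z hz
    have h1 := hscale1 z (mem_ball_zero_iff.1 hz)
    exact ((diffAt hB (mem_ball_zero_iff.1 (mC (mem_ball_zero_iff.2 h1)))).hasDerivAt.comp _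
      (diffAt hC h1).hasDerivAt).deriv
  have e1 : ∀ z ∈ ball (0 : ℂ) 1, deriv B (Cr z) * deriv Cr z = q₁ z * deriv f z := by
    intro z hz
    have h1 := hfac z
    simp only [hφ] at h1
    rw [hderA z hz] at h1
    have h2 := hu0 z hz
    rw [hderC z hz, hfu z hz]
    simp only [hq₁, hCr]
    field_simp
    linear_combination h1
  have e2 : ∀ z ∈ ball (0 : ℂ) 1, deriv B (Cr z) * deriv gr z = q₂ z * deriv f z := by
    intro z hz
    have h1 := e1 z hz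
    rw [hderC z hz] at h1
    rw [hderg z hz, hgm _ (hmaps1 hz)]
    simp only [hq₂]
    linear_combination (m (r * z)) * h1
  have e3 : ∀ z ∈ ball (0 : ℂ) 1, q₂ z * deriv Cr z = q₁ z * deriv gr z := by
    intro z hz
    rw [hderC z hz, hderg z hz, hgm _ (hmaps1 hz)]
    simp only [hq₂]
    ring
  -- products with the density of `f`
  have pos : ∀ {F : ℂ → ℂ}, MapsTo F (ball 0 1) (ball 0 1) → ∀ z ∈ ball (0 : ℂ) 1,
      0 < 1 - ‖F z‖ ^ 2 := fun hF z hz => one_sub_sq_pos (mem_ball_zero_iff.1 (hF hz))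
  have mAr : MapsTo Ar (ball 0 1) (ball 0 1) := fun z hz => mA (hmaps1 hz)
  have hprod1 : ∀ z ∈ ball (0 : ℂ) 1, ra q₁ f (fun _ => 0) Ar (fun _ => 0) z * pb f z =
      r * pb A (r * z) := by
    intro z hz
    have h1 := congrArg norm (e1 z hz)
    rw [hderC z hz, norm_mul, norm_mul, norm_mul, hrn] at h1
    have p1 := pos mf z hz
    have p2 := pos mAr z hz
    unfold ra pb
    rw [hderA z hz, norm_mul, norm_zero]
    simp only [hAr, hCr] at h1 p2 ⊢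
    field_simp
    linear_combination -h1
  have hprod2 : ∀ z ∈ ball (0 : ℂ) 1, ra q₂ f Cr Ar gr z * pb f z = r * HH B C g (r * z) := by
    intro z hz
    have h1 := congrArg norm (e2 z hz)
    rw [hderg z hz, norm_mul, norm_mul, norm_mul, hrn] at h1
    have p1 := pos mf z hz
    have p2 := pos mAr z hz
    have p3 := pos mgr z hz
    have p4 := pos mCr z hz
    unfold ra HH pb
    simp only [hAr, hCr, hgr, hAdef] at h1 p2 p3 p4 ⊢
    field_simp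
    linear_combination -h1
  -- bounds
  set K : ℝ := 1 / (1 - r ^ 2) with hK
  have hr2 : 0 < 1 - r ^ 2 := by nlinarith
  have hK0 : 0 < K := by positivity
  have hKA : ∀ z ∈ ball (0 : ℂ) 1, r * pb A (r * z) ≤ K := by
    intro z hz
    have hz' := mem_ball_zero_iff.1 hz
    have h1 := schwarz_pick hA mA (hscale1 z hz')
    have h2 : 1 - r ^ 2 ≤ 1 - ‖(r : ℂ) * z‖ ^ 2 := by
      have := pow_le_pow_left₀ (norm_nonneg _) (hscaler z hz') 2
      linarith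
    have h3 : 0 ≤ pb A (r * z) :=
      div_nonneg (norm_nonneg _) (pos mA _ (hmaps1 hz)).le
    rw [hK, le_div_iff₀ hr2]
    have h4 : pb A (r * z) * (1 - r ^ 2) ≤ 1 := (mul_le_mul_of_nonneg_left h2 h3).trans h1
    nlinarith [mul_nonneg h3 hr2.le]
  have hKH : ∀ z ∈ ball (0 : ℂ) 1, r * HH B C g (r * z) ≤ K := by
    intro z hz
    have hz' := mem_ball_zero_iff.1 hz
    have h1 := HH_le hB mB mC hg mg (hscale1 z hz')
    have h2 : 1 - r ^ 2 ≤ 1 - ‖(r : ℂ) * z‖ ^ 2 := by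
      have := pow_le_pow_left₀ (norm_nonneg _) (hscaler z hz') 2
      linarith
    have h3 : 0 ≤ HH B C g (r * z) := by
      unfold HH pb
      have q1 := pos mC _ (hmaps1 hz)
      have q2 := pos mA _ (hmaps1 hz)
      have q3 := pos mg _ (hmaps1 hz)
      simp only [hAdef] at q2
      positivity
    rw [hK, le_div_iff₀ hr2]
    have h4 : HH B C g (r * z) * (1 - r ^ 2) ≤ 1 := (mul_le_mul_of_nonneg_left h2 h3).trans h1
    nlinarith [mul_nonneg h3 hr2.le]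
  -- the boundary radius
  obtain ⟨ρ₁, hρ₁⟩ : ∃ ρ₁ : ℝ, (0 < ρ₁ ∧ ρ₁ < 1) ∧ ∀ k, ‖Z k‖ < ρ₁ := by
    have h1 : ∀ᶠ ρ : ℝ in 𝓝[<] (1 : ℝ), ∀ k, ‖Z k‖ < ρ :=
      eventually_all.2 fun k => mem_nhdsWithin_of_mem_nhds (lt_mem_nhds (hZ k))
    have h2 : ∀ᶠ ρ : ℝ in 𝓝[<] (1 : ℝ), 0 < ρ ∧ ρ < 1 := by
      filter_upwards [mem_nhdsWithin_of_mem_nhds (lt_mem_nhds (show (0 : ℝ) < 1 by norm_num)),
        self_mem_nhdsWithin] with ρ a1 a2
      exact ⟨a1, a2⟩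
    obtain ⟨ρ, h3, h4⟩ := (h2.and h1).exists
    exact ⟨ρ, h3, h4⟩
  set η : ℝ := ∏ k, (ρ₁ - ‖Z k‖) with hη
  have hη0 : 0 < η := Finset.prod_pos fun k _ => by linarith [hρ₁.2 k]
  have hPPlow : ∀ z : ℂ, ρ₁ ≤ ‖z‖ → η ≤ ‖PP Z z‖ := by
    intro z hz
    unfold PP
    rw [norm_prod]
    refine Finset.prod_le_prod (fun k _ => by linarith [hρ₁.2 k]) fun k _ => ?_
    have := norm_sub_norm_le z (Z k)
    linarith
  obtain ⟨ρ, hρ⟩ : ∃ ρ : ℝ, (ρ₁ ≤ ρ ∧ ρ < 1) ∧ (1 - ρ ^ 2) * K < c * η := by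
    have h1 : ∀ᶠ ρ : ℝ in 𝓝[<] (1 : ℝ), (1 - ρ ^ 2) * K < c * η := by
      have hcont : Continuous fun ρ : ℝ => (1 - ρ ^ 2) * K := by fun_prop
      have h2 := hcont.tendsto 1
      simp only [one_pow, sub_self, zero_mul] at h2
      exact (h2.mono_left nhdsWithin_le_nhds).eventually (gt_mem_nhds (by positivity))
    have h2 : ∀ᶠ ρ : ℝ in 𝓝[<] (1 : ℝ), ρ₁ ≤ ρ ∧ ρ < 1 := by
      filter_upwards [mem_nhdsWithin_of_mem_nhds (lt_mem_nhds hρ₁.1.2),
        self_mem_nhdsWithin] with ρ a1 a2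
      exact ⟨le_of_lt a1, a2⟩
    obtain ⟨ρ, h3, h4⟩ := (h2.and h1).exists
    exact ⟨ρ, h3, h4⟩
  have hbig : ∀ z : ℂ, ρ < ‖z‖ → ‖z‖ < 1 → K < pb f z := by
    intro z h1 h2
    have h3 := hlow z (mem_ball_zero_iff.2 h2)
    have h4 := hPPlow z (hρ.1.1.trans h1.le)
    have h5 : 0 < 1 - ‖z‖ ^ 2 := one_sub_sq_pos h2
    have h6 : 1 - ‖z‖ ^ 2 ≤ 1 - ρ ^ 2 := by
      have : ρ ^ 2 ≤ ‖z‖ ^ 2 := pow_le_pow_left₀ (hρ₁.1.1.le.trans hρ.1.1) h1.le 2
      linarith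
    have h7 : K * (1 - ‖z‖ ^ 2) < pb f z * (1 - ‖z‖ ^ 2) := by
      calc K * (1 - ‖z‖ ^ 2) ≤ K * (1 - ρ ^ 2) := mul_le_mul_of_nonneg_left h6 hK0.le
        _ < c * η := by rw [mul_comm]; exact hρ.2
        _ ≤ c * ‖PP Z z‖ := mul_le_mul_of_nonneg_left h4 hc.le
        _ ≤ _ := h3
    exact lt_of_mul_lt_mul_right h7 h5.le
  have hcmp := compare (A := Ar) (B := B) (C := Cr) (g := gr) (f := f) (q₁ := q₁) (q₂ := q₂)
    (fun z _ => rfl) hCrd mCr hB mB hgrd mgr hf mf hq₁d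
    (fun z hz => div_ne_zero (ha0 z hz) (hu0 z hz)) hq₂d e1 e2 e3 hρ.1.2
    (fun z h1 h2 => by
      have h3 := hbig z h1 h2
      have h4 := hprod1 z (mem_ball_zero_iff.2 h2)
      have h5 := hKA z (mem_ball_zero_iff.2 h2)
      by_contra hcon
      push Not at hcon
      nlinarith)
    (fun z h1 h2 => by
      have h3 := hbig z h1 h2
      have h4 := hprod2 z (mem_ball_zero_iff.2 h2)
      have h5 := hKH z (mem_ball_zero_iff.2 h2)
      by_contra hcon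
      push Not at hcon
      nlinarith)
  refine ⟨f, fun z => u z * (r / a z), hf, mf, hf0, ?_, ?_, ?_⟩
  · exact hu.mul ((differentiableOn_const _).div had1 ha0)
  · intro z hz
    have h1 := hfac z
    simp only [hφ] at h1
    have h2 := ha0 z hz
    rw [hfu z hz]
    field_simp
    linear_combination -(u z) * h1
  · intro z hz
    rw [← hprod2 z hz]
    have h1 := (hcmp z hz).2
    have h2 : 0 ≤ pb f z := div_nonneg (norm_nonneg _) (pos mf z hz).le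
    nlinarith

end Pool.Agent.MPce8478
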